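import Pool.Agent.Q237.EW.Bas

set_option autoImplicit false

/-!
# Asymptotic consequences of the Euler products: near points, increments, the exponential
-/

open Filter Topology Finset

namespace Pool.Agent.Q237.EW

open Pool.Agent.Q80.EW

theorem wt_lo (a : ℝ) : Wt (zc a) (lo a) := by
  intro p
  unfold lo
  constructor
  · split_ifs <;> norm_num
  · intro hp
    rw [if_neg]
    rintro ⟨-, h⟩
    omega

theorem primes_pos {Z p : ℕ} (hp : p ∈ Nat.primesBelow Z) : 0 < p :=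
  (Nat.mem_primesBelow.1 hp).2.pos

theorem chern (hEU : J_EU) (hM : J_MERT) : J_CHERN := by
  obtain ⟨C, hC, hEU⟩ := hEU
  obtain ⟨D, hM⟩ := hM
  refine ⟨Real.exp (D + C), Real.exp_pos _, ?_⟩
  intro a ha
  obtain ⟨-, h1, h2, -⟩ := hEU 0 0 (zc a) 0 (lo a) 0 (by norm_num) (by norm_num) (wt_lo a)
    (wt_zero _)
  have h3 : ∑ p ∈ Nat.primesBelow (zc a), c1 0 0 0 (lo a) 0 p / (p : ℝ) = VV a := by
    unfold VV
    refine Finset.sum_congr rfl fun p hp => ?_
    rw [c1_eq _ _ _ _ _ (primes_pos hp)]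
    have h4 : lo a p = 1 := by
      unfold lo
      rw [if_pos ⟨(Nat.mem_primesBelow.1 hp).2, (Nat.mem_primesBelow.1 hp).1⟩]
    rw [h4]
    simp
  rw [h3] at h2
  have h5 := nm_pos_of h1 h2
  have h6 := (abs_le.1 (hM a ha)).2
  refine h5.trans ?_
  rw [← Real.exp_add, Real.exp_le_exp]
  linarith

theorem ind_nonneg (a b : ℝ) (p : ℕ) : 0 ≤ ind a b p := by
  unfold ind
  split_ifs <;> norm_num

theorem ind_le_one (a b : ℝ) (p : ℕ) : ind a b p ≤ 1 := by
  unfold ind
  split_ifs <;> norm_num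

theorem ind_sq (a b : ℝ) (p : ℕ) : ind a b p ^ 2 = ind a b p := by
  unfold ind
  split_ifs <;> norm_num

theorem ind_zero {a b Y : ℝ} (hbY : b ≤ Y) {p : ℕ} (hp : zc Y ≤ p) : ind a b p = 0 := by
  unfold ind
  rw [if_neg]
  rintro ⟨-, -, h⟩
  have := zc_mono hbY
  omega

theorem sum_ind_inv {a b Y : ℝ} (hab : a ≤ b) (hbY : b ≤ Y) (c : ℝ) :
    ∑ p ∈ Nat.primesBelow (zc Y), c * ind a b p / (p : ℝ) = c * (VV b - VV a) := by
  have h1 := sum_ind (a := a) hbY (fun p : ℕ => c / (p : ℝ)) (fun p x => c * x / (p : ℝ))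
    (fun p => by rw [mul_one]) (fun p => by rw [mul_zero, zero_div])
  rw [h1]
  have h2 : ∑ p ∈ bl a b, c / (p : ℝ) = c * ∑ p ∈ bl a b, 1 / (p : ℝ) := by
    rw [Finset.mul_sum]
    exact Finset.sum_congr rfl fun p _ => by ring
  rw [h2, sum_bl_inv hab]

theorem four (hEU : J_EU) (hM : J_MERT) : J_FOUR := by
  obtain ⟨C, hC, hEU⟩ := hEU
  obtain ⟨D, hM⟩ := hM
  refine ⟨Real.exp (1 + 2 * |D| + C * 2), Real.exp_pos _, ?_⟩
  intro Y a b u ha hab hbY hu hub
  have hw : Wt (zc Y) (fun p => u * ind a b p) := by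
    intro p
    constructor
    · rw [abs_mul, abs_of_nonneg (ind_nonneg a b p)]
      have := ind_le_one a b p
      have := ind_nonneg a b p
      nlinarith [abs_nonneg u]
    · intro hp
      change u * ind a b p = 0
      rw [ind_zero hbY hp, mul_zero]
  obtain ⟨-, h1, -, h2⟩ := hEU 1 0 (zc Y) 0 (fun p => u * ind a b p) 0 (by norm_num) (by norm_num)
    hw (wt_zero _)
  obtain ⟨-, h0, -, -⟩ := hEU 1 0 (zc Y) 0 0 0 (by norm_num) (by norm_num) (wt_zero _) (wt_zero _)
  have h3 : ∑ p ∈ Nat.primesBelow (zc Y),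
      (c1 1 0 0 (fun p => u * ind a b p) 0 p - c1 1 0 0 0 0 p) / (p : ℝ) =
      (2 * u + u ^ 2) * (VV b - VV a) := by
    rw [← sum_ind_inv hab hbY]
    refine Finset.sum_congr rfl fun p hp => ?_
    rw [c1_eq _ _ _ _ _ (primes_pos hp), c1_eq _ _ _ _ _ (primes_pos hp)]
    congr 1
    have := ind_sq a b p
    simp only [Pi.zero_apply, Nat.cast_one, Nat.cast_zero]
    linear_combination u ^ 2 * this
  have h4 : ∑ p ∈ Nat.primesBelow (zc Y), (|u * ind a b p| + |(0 : ℕ → ℝ) p|) / (p : ℝ) ^ 2 ≤ 2 := by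
    refine le_trans (Finset.sum_le_sum fun p hp => ?_) (sum_sq_le (zc Y))
    refine div_le_div_of_nonneg_right ?_ (by positivity)
    rw [abs_mul, abs_of_nonneg (ind_nonneg a b p), Pi.zero_apply, abs_zero, add_zero]
    have := ind_le_one a b p
    have := ind_nonneg a b p
    nlinarith [abs_nonneg u]
  rw [h3] at h2
  have h5 : C * ∑ p ∈ Nat.primesBelow (zc Y), (|u * ind a b p| + |(0 : ℕ → ℝ) p|) / (p : ℝ) ^ 2 ≤
      C * 2 := mul_le_mul_of_nonneg_left h4 hC.le
  have h6 := (abs_le.1 (h2.trans h5)).2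
  have h7 : u ^ 2 * (VV b - VV a) ≤ 1 + 2 * |D| := by
    have e1 := (abs_le.1 (hM b (ha.trans hab))).2
    have e2 := (abs_le.1 (hM a ha)).1
    have e3 := le_abs_self D
    have e4 : u ^ 2 ≤ 1 := by
      have := sq_abs u
      nlinarith [abs_nonneg u]
    have e5 : VV b - VV a ≤ (b - a) + 2 * |D| := by linarith
    have e6 := mul_le_mul_of_nonneg_left e5 (sq_nonneg u)
    have e7 := abs_nonneg D
    nlinarith
  set X1 := nm (GG 1 0 (zc Y) 0 (fun p => u * ind a b p) 0) with hX1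
  set X0 := nm (GG 1 0 (zc Y) 0 0 0) with hX0
  have h8 : Real.log X1 ≤ Real.log X0 + (2 * u * (VV b - VV a) + (1 + 2 * |D| + C * 2)) := by
    linarith
  have h9 : X1 ≤ Real.exp (Real.log X0 + (2 * u * (VV b - VV a) + (1 + 2 * |D| + C * 2))) := by
    rwa [Real.log_le_iff_le_exp (by linarith)] at h8
  refine h9.trans (le_of_eq ?_)
  rw [Real.exp_add, Real.exp_add, Real.exp_log (by linarith)]
  ring

theorem near (hEU : J_EU) (hM : J_MERT) (hPS : J_PS) : J_NEAR := by
  obtain ⟨C, hC, hEU⟩ := hEU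
  obtain ⟨D, hM⟩ := hM
  obtain ⟨E, c, hE, hc, hPS⟩ := hPS
  refine ⟨Real.exp (20 * |D| + 6 * E + C), Real.exp_pos _, ?_⟩
  intro Y a b h ha hab hbY hh0 hh1 hh
  have hb : 0 ≤ b := ha.trans hab
  have hY : 0 ≤ Y := hb.trans hbY
  have haY : a ≤ Y := hab.trans hbY
  set v : ℕ → ℝ := fun p => -(lo a p) with hv
  have hlo : ∀ p, p ∈ Nat.primesBelow (zc Y) → lo a p = if p < zc a then 1 else 0 := by
    intro p hp
    unfold lo
    have := (Nat.mem_primesBelow.1 hp).2
    simp [this]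
  have hw : Wt (zc Y) v := by
    intro p
    rw [hv]
    refine ⟨?_, fun hp => ?_⟩
    · simp only [abs_neg]
      exact (wt_lo a p).1
    · simp only
      rw [(wt_lo a p).2 ((zc_mono haY).trans hp), neg_zero]
  obtain ⟨-, h1, h2, -⟩ := hEU 1 1 (zc Y) h v 0 (by norm_num) (by norm_num) hw (wt_zero _)
  -- the sum over the large primes
  have hbig : |∑ p ∈ bl b Y, (om h p).re / p| ≤ 3 * E := by
    rcases hh with h3 | h3
    · have hh0' : 0 < h := lt_of_lt_of_le (Real.exp_pos _) h3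
      have h4 := hPS h hh0'.ne' (zc b) (zc Y) (two_le_zc hb) (zc_mono hbY)
      have h5 : ∀ p ∈ bl b Y, 0 < p := by
        intro p hp
        unfold bl at hp
        exact (Finset.mem_filter.1 hp).2.pos
      refine (sum_re_le (bl b Y) h5).trans (h4.trans ?_)
      have h6 : E / (|h| * Real.log (zc b)) ≤ E := by
        apply div_le_self hE.le
        rw [abs_of_pos hh0']
        have h7 := exp_le_log_zc b
        have h8 : 1 = Real.exp (-b) * Real.exp b := by
          rw [← Real.exp_add, neg_add_cancel, Real.exp_zero]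
        rw [h8]
        exact mul_le_mul h3 h7 (Real.exp_pos _).le hh0'.le
      have h9 : E * (1 + |h|) * Real.exp (-(c * Real.sqrt (Real.log (zc b)))) ≤ E * 2 * 1 := by
        rw [abs_of_pos hh0']
        refine mul_le_mul ?_ ?_ (Real.exp_pos _).le (by positivity)
        · exact mul_le_mul_of_nonneg_left (by linarith) hE.le
        · rw [Real.exp_le_one_iff]
          have := mul_nonneg hc.le (Real.sqrt_nonneg (Real.log (zc b)))
          linarith
      linarith
    · subst h3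
      have h4 : bl b b = ∅ := by
        unfold bl
        simp
      rw [h4, Finset.sum_empty, abs_zero]
      linarith
  -- the sum of the squares
  have h3 : ∑ p ∈ Nat.primesBelow (zc Y), c1 1 1 h v 0 p / (p : ℝ) ≤
      VV a + 4 * (VV b - VV a) + 2 * (VV Y - VV b) + 2 * ∑ p ∈ bl b Y, (om h p).re / p := by
    have e1 : ∑ p ∈ Nat.primesBelow (zc Y), c1 1 1 h v 0 p / (p : ℝ) =
        ∑ p ∈ Nat.primesBelow (zc a), c1 1 1 h v 0 p / (p : ℝ) +
        ∑ p ∈ bl a b, c1 1 1 h v 0 p / (p : ℝ) + ∑ p ∈ bl b Y, c1 1 1 h v 0 p / (p : ℝ) := by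
      rw [sum_bl hab, sum_bl hbY]
      ring
    rw [e1]
    have e2 : ∑ p ∈ Nat.primesBelow (zc a), c1 1 1 h v 0 p / (p : ℝ) ≤ VV a := by
      unfold VV
      refine Finset.sum_le_sum fun p hp => ?_
      have hpm := Nat.mem_primesBelow.1 hp
      have hpY : p ∈ Nat.primesBelow (zc Y) := Nat.mem_primesBelow.2
        ⟨lt_of_lt_of_le hpm.1 (zc_mono haY), hpm.2⟩
      rw [c1_eq _ _ _ _ _ (primes_pos hp), hv]
      simp only [hlo p hpY, if_pos hpm.1]
      refine div_le_div_of_nonneg_right ?_ (by positivity)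
      simp
    have e3 : ∑ p ∈ bl a b, c1 1 1 h v 0 p / (p : ℝ) ≤ 4 * (VV b - VV a) := by
      rw [← sum_bl_inv hab, Finset.mul_sum]
      refine Finset.sum_le_sum fun p hp => ?_
      unfold bl at hp
      rw [Finset.mem_filter, Finset.mem_Ico] at hp
      have hpY : p ∈ Nat.primesBelow (zc Y) := Nat.mem_primesBelow.2
        ⟨lt_of_lt_of_le hp.1.2 (zc_mono hbY), hp.2⟩
      rw [c1_eq _ _ _ _ _ hp.2.pos, hv]
      simp only [hlo p hpY, if_neg (not_lt.2 hp.1.1)]
      rw [mul_one_div]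
      refine div_le_div_of_nonneg_right ?_ (by positivity)
      have := (abs_le.1 (norm_re_om (h := h) hp.2.pos)).2
      simp only [Pi.zero_apply, Nat.cast_one]
      linarith
    have e4 : ∑ p ∈ bl b Y, c1 1 1 h v 0 p / (p : ℝ) =
        2 * (VV Y - VV b) + 2 * ∑ p ∈ bl b Y, (om h p).re / p := by
      rw [← sum_bl_inv hbY, Finset.mul_sum, Finset.mul_sum, ← Finset.sum_add_distrib]
      refine Finset.sum_congr rfl fun p hp => ?_
      unfold bl at hp
      rw [Finset.mem_filter, Finset.mem_Ico] at hp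
      have hpY : p ∈ Nat.primesBelow (zc Y) := Nat.mem_primesBelow.2 ⟨hp.1.2, hp.2⟩
      have hpa : ¬ p < zc a := not_lt.2 ((zc_mono hab).trans hp.1.1)
      rw [c1_eq _ _ _ _ _ hp.2.pos, hv]
      simp only [hlo p hpY, if_neg hpa, Pi.zero_apply, Nat.cast_one]
      ring
    linarith
  have h4 := nm_pos_of h1 h2
  have h5 := (abs_le.1 hbig).2
  have m1 := abs_le.1 (hM a ha)
  have m2 := abs_le.1 (hM b hb)
  have m3 := abs_le.1 (hM Y hY)
  have hD := le_abs_self D
  have h6 : ∑ p ∈ Nat.primesBelow (zc Y), c1 1 1 h v 0 p / (p : ℝ) ≤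
      2 * Y - a + 2 * (b - a) + (20 * |D| + 6 * E) := by
    have := abs_nonneg D
    linarith
  refine h4.trans ?_
  rw [← Real.exp_add, Real.exp_le_exp]
  linarith

end Pool.Agent.Q237.EW
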