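import Mathlib

set_option autoImplicit false

/-!
Job RED, abstract part: averages over windows of a nonnegative continuous function.
-/

namespace Pool.Agent.Q237.EW.Red

open Filter Topology MeasureTheory Set

noncomputable section

/-- window averages -/
def Mu (g : ℝ → ℝ) (N U t : ℝ) : ℝ := 1 / (U * N) * ∫ u in t..(t + U), g u

theorem swap_cont {F : ℝ → ℝ → ℝ} (hF : Continuous F.uncurry) (a b c d : ℝ) :
    ∫ x in a..b, ∫ y in c..d, F x y = ∫ y in c..d, ∫ x in a..b, F x y := by
  apply intervalIntegral_intervalIntegral_swap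
  apply IntegrableOn.mono_set (t := Set.uIcc a b ×ˢ Set.uIcc c d)
  · exact hF.continuousOn.integrableOn_compact (isCompact_uIcc.prod isCompact_uIcc)
  · exact Set.prod_mono Set.uIoc_subset_uIcc Set.uIoc_subset_uIcc

theorem par_cont {F : ℝ → ℝ → ℝ} (hF : Continuous F.uncurry) (a b : ℝ) :
    Continuous (fun x => ∫ y in a..b, F x y) :=
  intervalIntegral.continuous_parametric_intervalIntegral_of_continuous' hF a b

variable {g : ℝ → ℝ} {N : ℝ}

theorem Mu_eq (g : ℝ → ℝ) (N U t : ℝ) : Mu g N U t = 1 / (U * N) * ∫ v in (0 : ℝ)..U, g (t + v) := by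
  unfold Mu
  rw [intervalIntegral.integral_comp_add_left (fun x => g x) t, add_zero]

theorem Mu_cont (hg : Continuous g) (N U : ℝ) : Continuous (Mu g N U) := by
  have h : Mu g N U = fun t => 1 / (U * N) * ∫ v in (0 : ℝ)..U, g (t + v) := by
    ext t
    exact Mu_eq g N U t
  rw [h]
  exact (par_cont (F := fun t v => g (t + v)) (by
    simp only [Function.uncurry_def]
    fun_prop) 0 U).const_mul _

theorem Mu_nonneg (h0 : ∀ t, 0 ≤ g t) (hN : 0 < N) {U : ℝ} (hU : 0 < U) (t : ℝ) : 0 ≤ Mu g N U t := by
  unfold Mu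
  apply mul_nonneg (by positivity)
  exact intervalIntegral.integral_nonneg (by linarith) fun u _ => h0 u

/-- **the window inequality** -/
theorem avg (hg : Continuous g) (h0 : ∀ t, 0 ≤ g t) (hN : 0 < N) {W U : ℝ} (hW : 0 < W) (hWU : W ≤ U)
    (t : ℝ) : 1 / U * ∫ h in (0 : ℝ)..(U - W), Mu g N W (t + h) ≤ Mu g N U t := by
  have hU : 0 < U := hW.trans_le hWU
  have e1 : ∫ h in (0 : ℝ)..(U - W), Mu g N W (t + h) =
      1 / (W * N) * ∫ h in (0 : ℝ)..(U - W), ∫ v in (0 : ℝ)..W, g (t + h + v) := by
    rw [← intervalIntegral.integral_const_mul]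
    congr 1
    ext h
    exact Mu_eq g N W (t + h)
  have e2 : ∫ h in (0 : ℝ)..(U - W), ∫ v in (0 : ℝ)..W, g (t + h + v) =
      ∫ v in (0 : ℝ)..W, ∫ h in (0 : ℝ)..(U - W), g (t + h + v) :=
    swap_cont (F := fun h v => g (t + h + v)) (by
      simp only [Function.uncurry_def]
      fun_prop) _ _ _ _
  have e3 : ∫ v in (0 : ℝ)..W, ∫ h in (0 : ℝ)..(U - W), g (t + h + v) ≤
      ∫ v in (0 : ℝ)..W, ∫ u in t..(t + U), g u := by
    apply intervalIntegral.integral_mono_on hW.le
    · apply Continuous.intervalIntegrable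
      exact par_cont (F := fun v h => g (t + h + v)) (by
        simp only [Function.uncurry_def]
        fun_prop) _ _
    · exact intervalIntegrable_const
    · intro v hv
      have e4 : ∫ h in (0 : ℝ)..(U - W), g (t + h + v) = ∫ x in (t + v)..(t + v + (U - W)), g x := by
        have := intervalIntegral.integral_comp_add_left (a := 0) (b := U - W) (fun x => g x) (t + v)
        rw [add_zero] at this
        rw [← this]
        congr 1
        ext h
        congr 1
        ring
      rw [e4]
      apply intervalIntegral.integral_mono_interval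
      · linarith [hv.1]
      · linarith
      · linarith [hv.2]
      · exact Eventually.of_forall fun u => h0 u
      · exact hg.intervalIntegrable _ _
  rw [intervalIntegral.integral_const, sub_zero, smul_eq_mul] at e3
  rw [e1, e2]
  unfold Mu
  calc 1 / U * (1 / (W * N) * ∫ v in (0 : ℝ)..W, ∫ h in (0 : ℝ)..(U - W), g (t + h + v))
      ≤ 1 / U * (1 / (W * N) * (W * ∫ u in t..(t + U), g u)) := by gcongr
    _ = 1 / (U * N) * ∫ u in t..(t + U), g u := by
        field_simp

/-- the mean of a window average -/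
theorem mean (hg : Continuous g) (hN : 0 < N) {U T A : ℝ} (hU : 0 < U)
    (hA : ∀ h : ℝ, 0 ≤ h → h ≤ U → ∫ t in T..(2 * T), g (t + h) ≤ A) :
    ∫ t in T..(2 * T), Mu g N U t ≤ A / N := by
  have e1 : ∫ t in T..(2 * T), Mu g N U t = 1 / (U * N) * ∫ t in T..(2 * T), ∫ v in (0 : ℝ)..U, g (t + v) := by
    rw [← intervalIntegral.integral_const_mul]
    congr 1
    ext t
    exact Mu_eq g N U t
  have e2 : ∫ t in T..(2 * T), ∫ v in (0 : ℝ)..U, g (t + v) =
      ∫ v in (0 : ℝ)..U, ∫ t in T..(2 * T), g (t + v) :=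
    swap_cont (F := fun t v => g (t + v)) (by
      simp only [Function.uncurry_def]
      fun_prop) _ _ _ _
  have e3 : ∫ v in (0 : ℝ)..U, ∫ t in T..(2 * T), g (t + v) ≤ ∫ v in (0 : ℝ)..U, A := by
    apply intervalIntegral.integral_mono_on hU.le
    · apply Continuous.intervalIntegrable
      exact par_cont (F := fun v t => g (t + v)) (by
        simp only [Function.uncurry_def]
        fun_prop) _ _
    · exact intervalIntegrable_const
    · intro v hv
      exact hA v hv.1 hv.2
  rw [intervalIntegral.integral_const, sub_zero, smul_eq_mul] at e3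
  rw [e1, e2]
  calc 1 / (U * N) * ∫ v in (0 : ℝ)..U, ∫ t in T..(2 * T), g (t + v) ≤ 1 / (U * N) * (U * A) := by gcongr
    _ = A / N := by field_simp

/-- Markov -/
theorem markov {D : ℝ → ℝ} (hD : Continuous D) {a b r : ℝ} (hab : a ≤ b) (h0 : ∀ t, 0 ≤ D t) (hr : 0 < r) :
    (volume {t : ℝ | t ∈ Icc a b ∧ r ≤ D t}).toReal ≤ (∫ t in a..b, D t) / r := by
  rw [le_div_iff₀ hr, mul_comm]
  have h1 := mul_meas_ge_le_integral_of_nonneg (μ := volume.restrict (Icc a b)) (f := D)
    (Eventually.of_forall h0) (hD.continuousOn.integrableOn_compact isCompact_Icc) r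
  have h2 : (volume.restrict (Icc a b)).real {x | r ≤ D x} = (volume {t : ℝ | t ∈ Icc a b ∧ r ≤ D t}).toReal := by
    have hm : MeasurableSet {x | r ≤ D x} := measurableSet_le measurable_const hD.measurable
    rw [measureReal_def, Measure.restrict_apply hm]
    congr 2
    ext x
    simp only [mem_inter_iff, mem_setOf_eq]
    tauto
  rw [h2] at h1
  rw [intervalIntegral.integral_of_le hab, ← integral_Icc_eq_integral_Ioc]
  exact h1

theorem meas_mono {a b : ℝ} {p q : ℝ → Prop} (h : ∀ t, t ∈ Icc a b → p t → q t) :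
    (volume {t : ℝ | t ∈ Icc a b ∧ p t}).toReal ≤ (volume {t : ℝ | t ∈ Icc a b ∧ q t}).toReal := by
  apply ENNReal.toReal_mono
  · exact ((measure_mono (fun t ht => ht.1 : {t : ℝ | t ∈ Icc a b ∧ q t} ⊆ Icc a b)).trans_lt
      measure_Icc_lt_top).ne
  · apply measure_mono
    intro t ht
    exact ⟨ht.1, h t ht.1 ht.2⟩

theorem meas_union {a b : ℝ} {p q : ℝ → Prop} :
    (volume {t : ℝ | t ∈ Icc a b ∧ (p t ∨ q t)}).toReal ≤
      (volume {t : ℝ | t ∈ Icc a b ∧ p t}).toReal + (volume {t : ℝ | t ∈ Icc a b ∧ q t}).toReal := by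
  rw [← ENNReal.toReal_add]
  · apply ENNReal.toReal_mono
    · refine (ENNReal.add_lt_top.2 ⟨?_, ?_⟩).ne
      · exact (measure_mono (fun t ht => ht.1 : {t : ℝ | t ∈ Icc a b ∧ p t} ⊆ Icc a b)).trans_lt measure_Icc_lt_top
      · exact (measure_mono (fun t ht => ht.1 : {t : ℝ | t ∈ Icc a b ∧ q t} ⊆ Icc a b)).trans_lt measure_Icc_lt_top
    · refine (measure_mono ?_).trans (measure_union_le _ _)
      rintro t ⟨ht, h | h⟩
      · exact Or.inl ⟨ht, h⟩
      · exact Or.inr ⟨ht, h⟩
  · exact ((measure_mono (fun t ht => ht.1 : {t : ℝ | t ∈ Icc a b ∧ p t} ⊆ Icc a b)).trans_lt measure_Icc_lt_top).ne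
  · exact ((measure_mono (fun t ht => ht.1 : {t : ℝ | t ∈ Icc a b ∧ q t} ⊆ Icc a b)).trans_lt measure_Icc_lt_top).ne

/-- **lower bound** -/
theorem lower (hg : Continuous g) (h0 : ∀ t, 0 ≤ g t) (hN : 0 < N) {f : ℝ → ℝ} (hf : Continuous f)
    (hf0 : ∀ t, 0 ≤ f t) {W U T c κ r : ℝ} (hW : 0 < W) (hWU : W ≤ κ * U) (hκ1 : κ ≤ 1) (hU : 0 < U)
    (hUT : U ≤ T) (hc0 : 0 ≤ c) (hc1 : c ≤ 1) (hr : 0 < r)
    (hfc : ∀ t, c - f t ≤ Mu g N W t) :
    (volume {t : ℝ | t ∈ Icc T (2 * T) ∧ Mu g N U t < c - κ - r}).toReal ≤ (∫ t in T..(3 * T), f t) / r := by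
  have hT : 0 < T := hU.trans_le hUT
  have hWU' : W ≤ U := hWU.trans (by nlinarith)
  set D : ℝ → ℝ := fun t => 1 / U * ∫ h in (0 : ℝ)..U, f (t + h) with hD
  have hDc : Continuous D := (par_cont (F := fun t v => f (t + v)) (by
    simp only [Function.uncurry_def]
    fun_prop) 0 U).const_mul _
  have hD0 : ∀ t, 0 ≤ D t := fun t => mul_nonneg (by positivity)
    (intervalIntegral.integral_nonneg hU.le fun h _ => hf0 _)
  have h1 : ∀ t, c - κ - D t ≤ Mu g N U t := by
    intro t
    have a1 := avg hg h0 hN hW hWU' t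
    have a2 : ∫ h in (0 : ℝ)..(U - W), (c - f (t + h)) ≤ ∫ h in (0 : ℝ)..(U - W), Mu g N W (t + h) := by
      apply intervalIntegral.integral_mono_on (by linarith)
      · exact Continuous.intervalIntegrable (by fun_prop) _ _
      · exact Continuous.intervalIntegrable ((Mu_cont hg N W).comp (by fun_prop)) _ _
      · intro h _
        exact hfc _
    rw [intervalIntegral.integral_sub intervalIntegrable_const (Continuous.intervalIntegrable (by fun_prop) _ _),
      intervalIntegral.integral_const, sub_zero, smul_eq_mul] at a2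
    have a3 : ∫ h in (0 : ℝ)..(U - W), f (t + h) ≤ ∫ h in (0 : ℝ)..U, f (t + h) := by
      apply intervalIntegral.integral_mono_interval le_rfl (by linarith) (by linarith)
      · exact Eventually.of_forall fun h => hf0 _
      · exact Continuous.intervalIntegrable (by fun_prop) _ _
    have a4 : 1 / U * ((U - W) * c - ∫ h in (0 : ℝ)..U, f (t + h)) ≤ Mu g N U t := by
      refine le_trans ?_ a1
      apply mul_le_mul_of_nonneg_left _ (by positivity)
      linarith
    have a5 : 1 / U * ((U - W) * c - ∫ h in (0 : ℝ)..U, f (t + h)) = c - W / U * c - D t := by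
      rw [hD]
      field_simp
    have a6 : W / U ≤ κ := by
      rw [div_le_iff₀ hU]
      exact hWU
    have a7 : W / U * c ≤ κ * 1 := by
      apply mul_le_mul a6 hc1 hc0
      have : 0 ≤ W / U := by positivity
      linarith
    linarith
  have h2 : ∫ t in T..(2 * T), D t ≤ ∫ t in T..(3 * T), f t := by
    have e1 : ∫ t in T..(2 * T), D t = 1 / U * ∫ t in T..(2 * T), ∫ h in (0 : ℝ)..U, f (t + h) := by
      rw [← intervalIntegral.integral_const_mul]
    have e2 : ∫ t in T..(2 * T), ∫ v in (0 : ℝ)..U, f (t + v) =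
        ∫ v in (0 : ℝ)..U, ∫ t in T..(2 * T), f (t + v) :=
      swap_cont (F := fun t v => f (t + v)) (by
        simp only [Function.uncurry_def]
        fun_prop) _ _ _ _
    have e3 : ∫ v in (0 : ℝ)..U, ∫ t in T..(2 * T), f (t + v) ≤ ∫ v in (0 : ℝ)..U, ∫ t in T..(3 * T), f t := by
      apply intervalIntegral.integral_mono_on hU.le
      · apply Continuous.intervalIntegrable
        exact par_cont (F := fun v t => f (t + v)) (by
          simp only [Function.uncurry_def]
          fun_prop) _ _
      · exact intervalIntegrable_const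
      · intro v hv
        rw [intervalIntegral.integral_comp_add_right (fun x => f x) v]
        apply intervalIntegral.integral_mono_interval
        · linarith [hv.1]
        · linarith
        · linarith [hv.2]
        · exact Eventually.of_forall fun u => hf0 u
        · exact hf.intervalIntegrable _ _
    rw [intervalIntegral.integral_const, sub_zero, smul_eq_mul] at e3
    rw [e1, e2]
    calc 1 / U * ∫ v in (0 : ℝ)..U, ∫ t in T..(2 * T), f (t + v) ≤ 1 / U * (U * ∫ t in T..(3 * T), f t) := by
          gcongr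
      _ = _ := by field_simp
  calc (volume {t : ℝ | t ∈ Icc T (2 * T) ∧ Mu g N U t < c - κ - r}).toReal
      ≤ (volume {t : ℝ | t ∈ Icc T (2 * T) ∧ r ≤ D t}).toReal := by
        apply meas_mono
        intro t _ ht
        have := h1 t
        linarith
    _ ≤ (∫ t in T..(2 * T), D t) / r := markov hDc (by linarith) hD0 hr
    _ ≤ _ := by gcongr

/-- **upper bound of the mean** -/
theorem upper (hg : Continuous g) (h0 : ∀ t, 0 ≤ g t) (hN : 0 < N) {f : ℝ → ℝ} (hf : Continuous f)
    (hf0 : ∀ t, 0 ≤ f t) {W U T c κ : ℝ} (hU : 0 < U) (hUW : U ≤ κ * W) (hκ1 : κ ≤ 1)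
    (hWT : W ≤ T) (hT : 0 < T) (hW0 : 0 < W)
    (hfc : ∀ t, min (Mu g N W t) 2 ≤ c + f t) :
    ∫ t in T..(2 * T), min (Mu g N U t) 2 ≤ c * T + (∫ t in T..(3 * T), f t) + 2 * W + 2 * κ * T := by
  have hUW' : U ≤ W := hUW.trans (by nlinarith)
  set p : ℝ → ℝ := fun t => min (Mu g N U t) 2 with hp
  have hpc : Continuous p := (Mu_cont hg N U).min continuous_const
  have hp0 : ∀ t, 0 ≤ p t := fun t => le_min (Mu_nonneg h0 hN hU t) (by norm_num)
  have hp2 : ∀ t, p t ≤ 2 := fun t => min_le_right _ _
  set P := ∫ t in T..(2 * T), p t with hP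
  have hP0 : 0 ≤ P := intervalIntegral.integral_nonneg (by linarith) fun t _ => hp0 t
  have hP2 : P ≤ 2 * T := by
    have h1 : P ≤ ∫ t in T..(2 * T), (2 : ℝ) :=
      intervalIntegral.integral_mono_on (by linarith) (hpc.intervalIntegrable _ _) intervalIntegrable_const
        fun t _ => hp2 t
    rw [intervalIntegral.integral_const, smul_eq_mul] at h1
    linarith
  -- the averages of `p` over windows of length `W`
  have h1 : ∀ t, 1 / W * ∫ h in (0 : ℝ)..(W - U), p (t + h) ≤ c + f t := by
    intro t
    refine le_trans ?_ (hfc t)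
    apply le_min
    · refine le_trans ?_ (avg hg h0 hN hU hUW' t)
      apply mul_le_mul_of_nonneg_left _ (by positivity)
      apply intervalIntegral.integral_mono_on (by linarith)
      · exact Continuous.intervalIntegrable (by fun_prop) _ _
      · exact Continuous.intervalIntegrable ((Mu_cont hg N U).comp (by fun_prop)) _ _
      · intro h _
        exact min_le_left _ _
    · have h2 : ∫ h in (0 : ℝ)..(W - U), p (t + h) ≤ ∫ h in (0 : ℝ)..(W - U), (2 : ℝ) := by
        apply intervalIntegral.integral_mono_on (by linarith)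
        · exact Continuous.intervalIntegrable (by fun_prop) _ _
        · exact intervalIntegrable_const
        · intro h _
          exact hp2 _
      rw [intervalIntegral.integral_const, sub_zero, smul_eq_mul] at h2
      calc 1 / W * ∫ h in (0 : ℝ)..(W - U), p (t + h) ≤ 1 / W * ((W - U) * 2) := by gcongr
        _ ≤ 1 / W * (W * 2) := by
            gcongr
            linarith
        _ = 2 := by field_simp
  have h2 : ∫ t in T..(2 * T), (1 / W * ∫ h in (0 : ℝ)..(W - U), p (t + h)) ≤ c * T + ∫ t in T..(3 * T), f t := by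
    have e1 : ∫ t in T..(2 * T), (1 / W * ∫ h in (0 : ℝ)..(W - U), p (t + h)) ≤ ∫ t in T..(2 * T), (c + f t) := by
      apply intervalIntegral.integral_mono_on (by linarith)
      · apply Continuous.intervalIntegrable
        exact (par_cont (F := fun t h => p (t + h)) (by
          simp only [Function.uncurry_def]
          fun_prop) _ _).const_mul _
      · exact Continuous.intervalIntegrable (by fun_prop) _ _
      · intro t _
        exact h1 t
    rw [intervalIntegral.integral_add intervalIntegrable_const (hf.intervalIntegrable _ _),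
      intervalIntegral.integral_const, smul_eq_mul] at e1
    have e2 : ∫ t in T..(2 * T), f t ≤ ∫ t in T..(3 * T), f t := by
      apply intervalIntegral.integral_mono_interval le_rfl (by linarith) (by linarith)
      · exact Eventually.of_forall fun u => hf0 u
      · exact hf.intervalIntegrable _ _
    have e3 : (2 * T - T) * c = c * T := by ring
    linarith
  have h3 : (W - U) * (P - 2 * W) ≤ ∫ h in (0 : ℝ)..(W - U), ∫ t in T..(2 * T), p (t + h) := by
    have e1 : ∫ h in (0 : ℝ)..(W - U), (P - 2 * W) ≤ ∫ h in (0 : ℝ)..(W - U), ∫ t in T..(2 * T), p (t + h) := by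
      apply intervalIntegral.integral_mono_on (by linarith)
      · exact intervalIntegrable_const
      · apply Continuous.intervalIntegrable
        exact par_cont (F := fun h t => p (t + h)) (by
          simp only [Function.uncurry_def]
          fun_prop) _ _
      · intro h hh
        rw [intervalIntegral.integral_comp_add_right (fun x => p x) h]
        have e2 : ∫ t in (T + h)..(2 * T), p t ≤ ∫ t in (T + h)..(2 * T + h), p t := by
          apply intervalIntegral.integral_mono_interval le_rfl
          · linarith [hh.2]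
          · linarith [hh.1]
          · exact Eventually.of_forall fun u => hp0 u
          · exact hpc.intervalIntegrable _ _
        have e3 : P = (∫ t in T..(T + h), p t) + ∫ t in (T + h)..(2 * T), p t :=
          (intervalIntegral.integral_add_adjacent_intervals (hpc.intervalIntegrable _ _)
            (hpc.intervalIntegrable _ _)).symm
        have e4 : ∫ t in T..(T + h), p t ≤ ∫ t in T..(T + h), (2 : ℝ) :=
          intervalIntegral.integral_mono_on (by linarith [hh.1]) (hpc.intervalIntegrable _ _)
            intervalIntegrable_const fun t _ => hp2 t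
        rw [intervalIntegral.integral_const, smul_eq_mul] at e4
        have := hh.2
        linarith
    rw [intervalIntegral.integral_const, sub_zero, smul_eq_mul] at e1
    exact e1
  have h4 : ∫ t in T..(2 * T), (1 / W * ∫ h in (0 : ℝ)..(W - U), p (t + h)) =
      1 / W * ∫ h in (0 : ℝ)..(W - U), ∫ t in T..(2 * T), p (t + h) := by
    rw [intervalIntegral.integral_const_mul]
    congr 1
    exact swap_cont (F := fun t h => p (t + h)) (by
      simp only [Function.uncurry_def]
      fun_prop) _ _ _ _
  rw [h4] at h2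
  have h5 : 1 / W * ((W - U) * (P - 2 * W)) ≤ c * T + ∫ t in T..(3 * T), f t := by
    refine le_trans ?_ h2
    gcongr
  have h6 : 1 / W * ((W - U) * (P - 2 * W)) = (P - 2 * W) - U / W * (P - 2 * W) := by
    field_simp
  have h7 : U / W * (P - 2 * W) ≤ κ * (2 * T) := by
    have e1 : U / W ≤ κ := by
      rw [div_le_iff₀ hW0]
      exact hUW
    have e2 : 0 ≤ U / W := by positivity
    have e3 : U / W * (P - 2 * W) ≤ U / W * (2 * T) := by
      apply mul_le_mul_of_nonneg_left _ e2
      linarith
    have e4 : U / W * (2 * T) ≤ κ * (2 * T) := by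
      apply mul_le_mul_of_nonneg_right e1
      linarith
    linarith
  linarith

/-- **combination** -/
theorem core {M : ℝ → ℝ} (hc : Continuous M) (hM : ∀ t, 0 ≤ M t) {T ε a cl cu e : ℝ} (hT : 0 < T)
    (hε : 0 < ε) (hε1 : ε ≤ 1) (ha : 0 < a) (ha1 : a ≤ ε ^ 2 / 8) (h0 : 0 ≤ cl) (hcl : cl ≤ e) (hcu : e ≤ cu)
    (hcu1 : cu ≤ 1) (hd : cu - cl ≤ a)
    (hV : (volume {t : ℝ | t ∈ Icc T (2 * T) ∧ M t < cl - a}).toReal ≤ a * T)
    (hP : ∫ t in T..(2 * T), min (M t) 2 ≤ (cu + a) * T) :
    (volume {t : ℝ | t ∈ Icc T (2 * T) ∧ ε < |M t - e|}).toReal ≤ ε * T := by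
  set e1 : ℝ := max (cl - a) 0 with he1
  have he10 : 0 ≤ e1 := le_max_right _ _
  have he1l : cl - a ≤ e1 := le_max_left _ _
  have he1e : e1 ≤ e := max_le (by linarith) (by linarith)
  have hε2 : ε ^ 2 ≤ ε := by nlinarith
  have ha2 : a ≤ ε / 8 := by linarith
  -- the lower set
  have hV1 : (volume {t : ℝ | t ∈ Icc T (2 * T) ∧ M t < e1}).toReal ≤ a * T := by
    rcases le_total (cl - a) 0 with h | h
    · have h1 : {t : ℝ | t ∈ Icc T (2 * T) ∧ M t < e1} = ∅ := by
        ext t
        simp only [mem_setOf_eq, mem_empty_iff_false, iff_false, not_and, not_lt]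
        intro _
        rw [he1, max_eq_right h]
        exact hM t
      rw [h1]
      simp
      positivity
    · rw [he1, max_eq_left h]
      exact hV
  -- the integral
  set V1 := (volume {t : ℝ | t ∈ Icc T (2 * T) ∧ M t < e1}).toReal with hV1d
  set V2 := (volume {t : ℝ | t ∈ Icc T (2 * T) ∧ e1 + ε < M t}).toReal with hV2d
  have hmeas1 : MeasurableSet {t : ℝ | M t < e1} := measurableSet_lt hc.measurable measurable_const
  have hmeas2 : MeasurableSet {t : ℝ | e1 + ε < M t} := measurableSet_lt measurable_const hc.measurable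
  have hpt : ∀ t, e1 * (1 - indicator {t : ℝ | M t < e1} (fun _ => (1 : ℝ)) t) +
      ε * indicator {t : ℝ | e1 + ε < M t} (fun _ => (1 : ℝ)) t ≤ min (M t) 2 := by
    intro t
    by_cases h1 : M t < e1
    · rw [indicator_of_mem (show t ∈ {t : ℝ | M t < e1} from h1),
        indicator_of_notMem (show t ∉ {t : ℝ | e1 + ε < M t} from fun h => by
          have : e1 + ε < M t := h
          linarith)]
      have := hM t
      rw [sub_self, mul_zero, mul_zero, add_zero]
      exact le_min this (by norm_num)
    · rw [indicator_of_notMem (show t ∉ {t : ℝ | M t < e1} from h1), sub_zero, mul_one]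
      by_cases h2 : e1 + ε < M t
      · rw [indicator_of_mem (show t ∈ {t : ℝ | e1 + ε < M t} from h2), mul_one]
        exact le_min h2.le (by linarith)
      · rw [indicator_of_notMem (show t ∉ {t : ℝ | e1 + ε < M t} from h2), mul_zero, add_zero]
        exact le_min (not_lt.1 h1) (by linarith)
  have hI : ∫ t in T..(2 * T), (e1 * (1 - indicator {t : ℝ | M t < e1} (fun _ => (1 : ℝ)) t) +
      ε * indicator {t : ℝ | e1 + ε < M t} (fun _ => (1 : ℝ)) t) = e1 * (T - V1) + ε * V2 := by
    rw [intervalIntegral.integral_of_le (by linarith), ← integral_Icc_eq_integral_Ioc]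
    have i1 : IntegrableOn (indicator {t : ℝ | M t < e1} (fun _ => (1 : ℝ))) (Icc T (2 * T)) :=
      (integrableOn_const (by simp)).indicator hmeas1
    have i2 : IntegrableOn (indicator {t : ℝ | e1 + ε < M t} (fun _ => (1 : ℝ))) (Icc T (2 * T)) :=
      (integrableOn_const (by simp)).indicator hmeas2
    have i0 : IntegrableOn (fun _ : ℝ => (1 : ℝ)) (Icc T (2 * T)) := integrableOn_const (by simp)
    have i3 : IntegrableOn (fun t : ℝ => e1 * (1 - indicator {t : ℝ | M t < e1} (fun _ => (1 : ℝ)) t))
        (Icc T (2 * T)) := (i0.sub i1).const_mul e1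
    have i4 : IntegrableOn (fun t : ℝ => ε * indicator {t : ℝ | e1 + ε < M t} (fun _ => (1 : ℝ)) t)
        (Icc T (2 * T)) := i2.const_mul ε
    have i5 : IntegrableOn (fun t : ℝ => indicator {t : ℝ | M t < e1} (fun _ => (1 : ℝ)) t)
        (Icc T (2 * T)) := i1
    rw [integral_add i3 i4, integral_const_mul, integral_const_mul, integral_sub i0 i5]
    have j1 : ∫ t in Icc T (2 * T), indicator {t : ℝ | M t < e1} (fun _ => (1 : ℝ)) t = V1 := by
      rw [setIntegral_indicator hmeas1, setIntegral_const, smul_eq_mul, mul_one, measureReal_def]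
      rfl
    have j2 : ∫ t in Icc T (2 * T), indicator {t : ℝ | e1 + ε < M t} (fun _ => (1 : ℝ)) t = V2 := by
      rw [setIntegral_indicator hmeas2, setIntegral_const, smul_eq_mul, mul_one, measureReal_def]
      rfl
    have j0 : ∫ _t in Icc T (2 * T), (1 : ℝ) = T := by
      rw [setIntegral_const, smul_eq_mul, mul_one, measureReal_def, Real.volume_Icc,
        ENNReal.toReal_ofReal (by linarith)]
      ring
    rw [j0, j1, j2]
  have hle : e1 * (T - V1) + ε * V2 ≤ (cu + a) * T := by
    rw [← hI]
    refine le_trans ?_ hP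
    apply intervalIntegral.integral_mono_on (by linarith)
    · rw [intervalIntegrable_iff_integrableOn_Icc_of_le (by linarith)]
      have i1 : IntegrableOn (indicator {t : ℝ | M t < e1} (fun _ => (1 : ℝ))) (Icc T (2 * T)) :=
        (integrableOn_const (by simp)).indicator hmeas1
      have i2 : IntegrableOn (indicator {t : ℝ | e1 + ε < M t} (fun _ => (1 : ℝ))) (Icc T (2 * T)) :=
        (integrableOn_const (by simp)).indicator hmeas2
      have i0 : IntegrableOn (fun _ : ℝ => (1 : ℝ)) (Icc T (2 * T)) := integrableOn_const (by simp)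
      exact ((i0.sub i1).const_mul e1).add (i2.const_mul ε)
    · exact Continuous.intervalIntegrable (hc.min continuous_const) _ _
    · intro t _
      exact hpt t
  have hV10 : 0 ≤ V1 := ENNReal.toReal_nonneg
  have hV2 : V2 ≤ 4 * a * T / ε := by
    rw [le_div_iff₀ hε]
    have h1 : e1 * V1 ≤ 1 * (a * T) := by
      apply mul_le_mul (by linarith) hV1 hV10 zero_le_one
    nlinarith
  have hV2' : V2 ≤ ε / 2 * T := by
    refine hV2.trans ?_
    rw [div_le_iff₀ hε]
    nlinarith
  calc (volume {t : ℝ | t ∈ Icc T (2 * T) ∧ ε < |M t - e|}).toReal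
      ≤ (volume {t : ℝ | t ∈ Icc T (2 * T) ∧ (M t < e1 ∨ e1 + ε < M t)}).toReal := by
        apply meas_mono
        intro t _ ht
        rcases lt_abs.1 ht with h | h
        · right
          linarith
        · left
          have : cl - a ≥ e - ε + (cl - a - e + ε) := by linarith
          have h3 : e - ε ≤ cl - a := by linarith
          linarith
    _ ≤ V1 + V2 := meas_union
    _ ≤ a * T + ε / 2 * T := by linarith
    _ ≤ ε * T := by nlinarith

end

end Pool.Agent.Q237.EW.Red
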