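import Pool.Agent.Q80.EW.Stm
import Pool.Agent.Q237.EW.RedA

set_option autoImplicit false

/-!
Job RED of project EW: from windows of length `exp(y √Λ)` to all windows.
-/

namespace Pool.Agent.Q237.EW

open Filter Topology MeasureTheory Set
open Pool.Agent.Q80.EW
open Pool.Agent.Q237.EW.Red (Mu Mu_cont Mu_nonneg mean lower upper core meas_mono)

/-! ### the error function -/

theorem gc : Continuous (fun x : ℝ => Real.exp (-x ^ 2)) := by fun_prop

theorem two_sqrt_pi : 2 / Real.sqrt Real.pi ≤ 1.2 := by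
  have h1 : (1.7 : ℝ) ≤ Real.sqrt Real.pi := by
    apply Real.le_sqrt_of_sq_le
    have := Real.pi_gt_three
    norm_num
    linarith
  rw [div_le_iff₀ (by linarith)]
  linarith

theorem erf_diff (a b : ℝ) : erf b - erf a = 2 / Real.sqrt Real.pi * ∫ x in a..b, Real.exp (-x ^ 2) := by
  unfold erf
  rw [← mul_sub, intervalIntegral.integral_interval_sub_left (gc.intervalIntegrable _ _)
    (gc.intervalIntegrable _ _)]

theorem erf_mono : Monotone erf := by
  intro a b hab
  have h := erf_diff a b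
  have h1 : 0 ≤ ∫ x in a..b, Real.exp (-x ^ 2) :=
    intervalIntegral.integral_nonneg hab fun x _ => (Real.exp_pos _).le
  have h2 : 0 ≤ 2 / Real.sqrt Real.pi * ∫ x in a..b, Real.exp (-x ^ 2) := by positivity
  linarith

theorem erf_lip {a b : ℝ} (hab : a ≤ b) : erf b - erf a ≤ 1.2 * (b - a) := by
  rw [erf_diff]
  have h1 : ∫ x in a..b, Real.exp (-x ^ 2) ≤ ∫ x in a..b, (1 : ℝ) :=
    intervalIntegral.integral_mono_on hab (gc.intervalIntegrable _ _) intervalIntegrable_const
      fun x _ => by
        rw [Real.exp_le_one_iff]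
        have := sq_nonneg x
        linarith
  rw [intervalIntegral.integral_const, smul_eq_mul, mul_one] at h1
  have h0 : 0 ≤ ∫ x in a..b, Real.exp (-x ^ 2) :=
    intervalIntegral.integral_nonneg hab fun x _ => (Real.exp_pos _).le
  exact mul_le_mul two_sqrt_pi h1 h0 (by norm_num)

theorem erf_zero : erf 0 = 0 := by
  unfold erf
  simp

theorem erf_tendsto : Tendsto erf atTop (𝓝 1) := by
  have h1 : IntegrableOn (fun x : ℝ => Real.exp (-x ^ 2)) (Ioi 0) := by
    have := (integrable_exp_neg_mul_sq (b := 1) one_pos).integrableOn (s := Ioi (0 : ℝ))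
    simpa using this
  have h2 := intervalIntegral_tendsto_integral_Ioi 0 h1 tendsto_id
  have h3 : ∫ x in Ioi (0 : ℝ), Real.exp (-x ^ 2) = Real.sqrt Real.pi / 2 := by
    have := integral_gaussian_Ioi 1
    simpa using this
  rw [h3] at h2
  have h4 := h2.const_mul (2 / Real.sqrt Real.pi)
  have h5 : 2 / Real.sqrt Real.pi * (Real.sqrt Real.pi / 2) = 1 := by
    have : 0 < Real.sqrt Real.pi := Real.sqrt_pos.2 Real.pi_pos
    field_simp
  rw [h5] at h4
  exact h4

theorem erf_le_one (b : ℝ) : erf b ≤ 1 := erf_mono.ge_of_tendsto erf_tendsto b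

theorem erf_nonneg {b : ℝ} (hb : 0 ≤ b) : 0 ≤ erf b := by
  rw [← erf_zero]
  exact erf_mono hb

/-! ### zeta -/

theorem ze_cont : Continuous ze := by
  rw [continuous_iff_continuousAt]
  intro t
  unfold ze
  have h1 : ContinuousAt (fun t : ℝ => (1 / 2 : ℂ) + (t : ℂ) * Complex.I) t := by fun_prop
  refine ContinuousAt.comp (g := riemannZeta) ?_ h1
  apply (differentiableAt_riemannZeta ?_).continuousAt
  intro h
  have := congrArg Complex.re h
  norm_num at this

/-- the square -/
noncomputable def gz (u : ℝ) : ℝ := ‖ze u‖ ^ 2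

theorem gz_cont : Continuous gz := ze_cont.norm.pow 2

theorem gz_nonneg (u : ℝ) : 0 ≤ gz u := by
  unfold gz
  positivity

theorem MM_eq (U T t : ℝ) : MM U T t = Mu gz (Real.log T) U t := rfl

theorem tendsto_S : Tendsto (fun T => Real.sqrt (La T)) atTop atTop :=
  Real.tendsto_sqrt_atTop.comp (Real.tendsto_log_atTop.comp Real.tendsto_log_atTop)

/-- the deviation -/
noncomputable def dv (y T t : ℝ) : ℝ :=
  |min (MM (Real.exp (y * Real.sqrt (La T))) T t) 2 - erf (y / 2)|

theorem dv_cont (y T : ℝ) : Continuous (dv y T) := by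
  unfold dv
  simp only [MM_eq]
  exact (((Mu_cont gz_cont _ _).min continuous_const).sub continuous_const).abs

theorem dv_nonneg (y T t : ℝ) : 0 ≤ dv y T t := abs_nonneg _

/-- the law in the mean -/
theorem law_mean {y : ℝ} (hy : 0 < y)
    (h : ∀ ε : ℝ, 0 < ε → Tendsto (fun T : ℝ => (volume {t : ℝ | t ∈ Set.Icc T (3 * T) ∧
      ε < |MM (Real.exp (y * Real.sqrt (La T))) T t - erf (y / 2)|}).toReal / T) atTop (𝓝 0))
    {κ : ℝ} (hκ : 0 < κ) : ∀ᶠ T : ℝ in atTop, ∫ t in T..(3 * T), dv y T t ≤ κ * T := by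
  have h1 : ∀ᶠ T : ℝ in atTop, (volume {t : ℝ | t ∈ Set.Icc T (3 * T) ∧
      κ / 4 < |MM (Real.exp (y * Real.sqrt (La T))) T t - erf (y / 2)|}).toReal / T < κ / 4 :=
    (h (κ / 4) (by positivity)).eventually (gt_mem_nhds (by positivity))
  filter_upwards [h1, eventually_gt_atTop 1] with T hT hT1
  have hT0 : 0 < T := by linarith
  have hN : 0 < Real.log T := Real.log_pos hT1
  rw [div_lt_iff₀ hT0] at hT
  set c := erf (y / 2) with hc
  have hc0 : 0 ≤ c := erf_nonneg (by positivity)
  have hc1 : c ≤ 1 := erf_le_one _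
  set M : ℝ → ℝ := fun t => MM (Real.exp (y * Real.sqrt (La T))) T t with hM
  have hMc : Continuous M := Mu_cont gz_cont _ _
  have hM0 : ∀ t, 0 ≤ M t := Mu_nonneg gz_nonneg hN (Real.exp_pos _)
  set A : Set ℝ := {t : ℝ | κ / 4 < |M t - c|} with hA
  have hAm : MeasurableSet A := measurableSet_lt measurable_const ((hMc.sub continuous_const).abs).measurable
  have hpt : ∀ t, dv y T t ≤ κ / 4 + 2 * indicator A (fun _ => (1 : ℝ)) t := by
    intro t
    have e1 : dv y T t = |min (M t) 2 - c| := rfl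
    rw [e1]
    by_cases ht : t ∈ A
    · rw [indicator_of_mem ht, mul_one]
      have a1 : 0 ≤ min (M t) 2 := le_min (hM0 t) (by norm_num)
      have a2 : min (M t) 2 ≤ 2 := min_le_right _ _
      rw [abs_le]
      constructor <;> linarith
    · rw [indicator_of_notMem ht, mul_zero, add_zero]
      have a1 : |M t - c| ≤ κ / 4 := not_lt.1 ht
      refine le_trans ?_ a1
      rcases le_total (M t) 2 with h2 | h2
      · rw [min_eq_left h2]
      · rw [min_eq_right h2, abs_of_nonneg (by linarith), abs_of_nonneg (by linarith)]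
        linarith
  have i1 : IntegrableOn (indicator A (fun _ => (1 : ℝ))) (Icc T (3 * T)) :=
    (integrableOn_const (by simp)).indicator hAm
  have i2 : IntegrableOn (fun t => 2 * indicator A (fun _ => (1 : ℝ)) t) (Icc T (3 * T)) :=
    Integrable.const_mul i1 2
  have i0 : IntegrableOn (fun _ : ℝ => κ / 4) (Icc T (3 * T)) := integrableOn_const (by simp)
  have h2 : ∫ t in T..(3 * T), dv y T t ≤ ∫ t in T..(3 * T), (κ / 4 + 2 * indicator A (fun _ => (1 : ℝ)) t) := by
    apply intervalIntegral.integral_mono_on (by linarith)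
    · exact (dv_cont y T).intervalIntegrable _ _
    · rw [intervalIntegrable_iff_integrableOn_Icc_of_le (by linarith)]
      exact i0.add i2
    · intro t _
      exact hpt t
  have h3 : ∫ t in T..(3 * T), (κ / 4 + 2 * indicator A (fun _ => (1 : ℝ)) t) =
      2 * T * (κ / 4) + 2 * (volume {t : ℝ | t ∈ Set.Icc T (3 * T) ∧ κ / 4 < |M t - c|}).toReal := by
    rw [intervalIntegral.integral_of_le (by linarith), ← integral_Icc_eq_integral_Ioc,
      integral_add i0 i2, integral_const_mul, setIntegral_indicator hAm, setIntegral_const, setIntegral_const,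
      smul_eq_mul, smul_eq_mul, mul_one, measureReal_def, measureReal_def, Real.volume_Icc,
      ENNReal.toReal_ofReal (by linarith)]
    have e1 : Icc T (3 * T) ∩ A = {t : ℝ | t ∈ Set.Icc T (3 * T) ∧ κ / 4 < |M t - c|} := rfl
    rw [e1]
    ring
  rw [h3] at h2
  have h4 : (volume {t : ℝ | t ∈ Set.Icc T (3 * T) ∧ κ / 4 < |M t - c|}).toReal < κ / 4 * T := hT
  nlinarith

theorem red_aux (hHLW : J_HLW)
    (hLaw : ∀ y : ℝ, 0 < y → ∀ ε : ℝ, 0 < ε → Tendsto (fun T : ℝ => (volume {t : ℝ | t ∈ Set.Icc T (3 * T) ∧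
      ε < |MM (Real.exp (y * Real.sqrt (La T))) T t - erf (y / 2)|}).toReal / T) atTop (𝓝 0))
    {ε : ℝ} (hε : 0 < ε) (hε1 : ε ≤ 1) : ∀ᶠ T : ℝ in atTop, ∀ U : ℝ, 1 ≤ U → U ≤ T →
    (volume {t : ℝ | t ∈ Set.Icc T (2 * T) ∧
      ε < |MM U T t - erf (Real.log U / (2 * Real.sqrt (La T)))|}).toReal ≤ ε * T := by
  obtain ⟨C, hC⟩ := hHLW
  set a : ℝ := ε ^ 2 / 8 with ha
  have ha0 : 0 < a := by positivity
  have ha1 : a ≤ 1 / 8 := by
    have : ε ^ 2 ≤ 1 := pow_le_one₀ hε.le hε1
    linarith
  set δ : ℝ := a / 2 with hδ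
  have hδ0 : 0 < δ := by positivity
  set κ : ℝ := a / 16 with hκ
  have hκ0 : 0 < κ := by positivity
  -- the last level
  obtain ⟨n, hn2, hn⟩ : ∃ n : ℕ, 2 ≤ n ∧ 1 - a ≤ erf (((n : ℝ) - 1) * δ / 2) := by
    have h1 : Tendsto (fun n : ℕ => ((n : ℝ) - 1) * δ / 2) atTop atTop := by
      apply Tendsto.atTop_div_const (by norm_num)
      apply Tendsto.atTop_mul_const hδ0
      exact tendsto_atTop_add_const_right _ _ tendsto_natCast_atTop_atTop
    have h2 : ∀ᶠ n : ℕ in atTop, 1 - a < erf (((n : ℝ) - 1) * δ / 2) :=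
      (erf_tendsto.comp h1).eventually (lt_mem_nhds (by linarith))
    obtain ⟨n, h3, h4⟩ := (h2.and (eventually_ge_atTop 2)).exists
    exact ⟨n, h4, h3.le⟩
  -- the eventual bounds
  have hS := tendsto_S
  have ev1 : ∀ᶠ T : ℝ in atTop, ∀ i ∈ Finset.Icc 1 (n + 2), ∫ t in T..(3 * T), dv ((i : ℝ) * δ) T t ≤ a ^ 2 / 16 * T := by
    rw [eventually_all_finset]
    intro i hi
    have hi1 : (1 : ℝ) ≤ i := by exact_mod_cast (Finset.mem_Icc.1 hi).1
    exact law_mean (by positivity) (hLaw _ (by positivity)) (by positivity)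
  have ev2 : ∀ᶠ T : ℝ in atTop, Real.exp (-(δ * Real.sqrt (La T))) ≤ κ := by
    have h1 : Tendsto (fun T => -(δ * Real.sqrt (La T))) atTop atBot :=
      tendsto_neg_atTop_atBot.comp (hS.const_mul_atTop hδ0)
    exact ((Real.tendsto_exp_atBot.comp h1).eventually (gt_mem_nhds hκ0)).mono fun T hT => le_of_lt hT
  have ev3 : ∀ᶠ T : ℝ in atTop, Real.exp (((n : ℝ) + 2) * δ * Real.sqrt (La T)) ≤ κ * T := by
    -- `log κ + log T - B √(log log T) → ∞`
    set B : ℝ := ((n : ℝ) + 2) * δ with hB
    have h1 : Tendsto (fun x : ℝ => Real.exp x - (B * Real.sqrt x - Real.log κ)) atTop atTop := by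
      have h2 : Tendsto (fun x : ℝ => Real.exp x - x - (B * x - Real.log κ)) atTop atTop := by
        have h3 : Tendsto (fun x : ℝ => Real.exp x * (1 - (x * (1 + B)) / Real.exp x)) atTop atTop := by
          apply Real.tendsto_exp_atTop.atTop_mul_pos (C := 1) one_pos
          have h4 : Tendsto (fun x : ℝ => x / Real.exp x) atTop (𝓝 0) := by
            have := Real.tendsto_pow_mul_exp_neg_atTop_nhds_zero 1
            refine this.congr fun x => ?_
            rw [pow_one, Real.exp_neg, div_eq_mul_inv]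
          have h5 := (h4.mul_const (1 + B)).const_sub 1
          rw [zero_mul, sub_zero] at h5
          refine h5.congr fun x => ?_
          ring
        refine (tendsto_atTop_add_const_right _ (Real.log κ) h3).congr fun x => ?_
        have : Real.exp x ≠ 0 := (Real.exp_pos x).ne'
        field_simp
        ring
      refine tendsto_atTop_mono' _ ?_ h2
      filter_upwards [eventually_ge_atTop 1] with x hx
      have h6 : Real.sqrt x ≤ x := by
        rw [Real.sqrt_le_left (by linarith)]
        nlinarith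
      have h7 : 0 ≤ B := by positivity
      nlinarith
    have h8 : Tendsto La atTop atTop := Real.tendsto_log_atTop.comp Real.tendsto_log_atTop
    have h9 := (h1.comp h8).eventually (eventually_ge_atTop 0)
    filter_upwards [h9, eventually_gt_atTop 1] with T hT hT1
    have hlog : 0 < Real.log T := Real.log_pos hT1
    have e1 : Real.exp (La T) = Real.log T := by
      unfold La
      exact Real.exp_log hlog
    simp only [Function.comp_apply] at hT
    rw [e1] at hT
    have hT0 : 0 < T := by linarith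
    calc Real.exp (B * Real.sqrt (La T)) ≤ Real.exp (Real.log κ + Real.log T) := by
          apply Real.exp_le_exp.2
          linarith
      _ = κ * T := by rw [Real.exp_add, Real.exp_log hκ0, Real.exp_log hT0]
  have ev4 : ∀ᶠ T : ℝ in atTop, C / Real.log T ≤ a := by
    have h1 : Tendsto (fun T : ℝ => C / Real.log T) atTop (𝓝 0) := Real.tendsto_log_atTop.const_div_atTop C
    exact (h1.eventually (gt_mem_nhds ha0)).mono fun T hT => le_of_lt hT
  have ev5 : ∀ᶠ T : ℝ in atTop, 0 < Real.sqrt (La T) := hS.eventually (eventually_gt_atTop 0)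
  filter_upwards [ev1, ev2, ev3, ev4, ev5, eventually_ge_atTop 3] with T e1 e2 e3 e4 e5 e6 U hU1 hUT
  have hT0 : 0 < T := by linarith
  have hU0 : 0 < U := by linarith
  have hN : 0 < Real.log T := Real.log_pos (by linarith)
  set S := Real.sqrt (La T) with hSd
  set y : ℝ := Real.log U / S with hy
  have hlogU : 0 ≤ Real.log U := Real.log_nonneg hU1
  have hy0 : 0 ≤ y := by positivity
  have hUy : U = Real.exp (y * S) := by
    rw [hy, div_mul_cancel₀ _ e5.ne', Real.exp_log hU0]
  have hey : Real.log U / (2 * S) = y / 2 := by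
    rw [hy]
    field_simp
  rw [hey]
  -- the levels
  set i : ℕ := ⌊y / δ⌋₊ with hi
  have hi1 : (i : ℝ) * δ ≤ y := by
    have := Nat.floor_le (show 0 ≤ y / δ by positivity)
    rwa [le_div_iff₀ hδ0] at this
  have hi2 : y < ((i : ℝ) + 1) * δ := by
    have := Nat.lt_floor_add_one (y / δ)
    rwa [div_lt_iff₀ hδ0] at this
  -- comparison of the windows with the levels
  have hlowW : ∀ z : ℝ, z + δ ≤ y → Real.exp (z * S) ≤ κ * U := by
    intro z hz
    have h1 : Real.exp (z * S) ≤ Real.exp (-(δ * S)) * U := by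
      rw [hUy, ← Real.exp_add]
      apply Real.exp_le_exp.2
      nlinarith
    refine h1.trans ?_
    gcongr
  have hupW : ∀ z : ℝ, y ≤ z - δ → U ≤ κ * Real.exp (z * S) := by
    intro z hz
    have h1 : U ≤ Real.exp (-(δ * S)) * Real.exp (z * S) := by
      rw [hUy, ← Real.exp_add]
      apply Real.exp_le_exp.2
      nlinarith
    refine h1.trans ?_
    gcongr
  have hlow : ∀ j : ℕ, 1 ≤ j → j ≤ n + 2 → (j : ℝ) * δ + δ ≤ y →
      (volume {t : ℝ | t ∈ Icc T (2 * T) ∧ MM U T t < erf ((j : ℝ) * δ / 2) - a}).toReal ≤ a * T := by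
    intro j hj1 hj2 hjy
    have hj0 : (1 : ℝ) ≤ j := by exact_mod_cast hj1
    have h1 := lower (g := gz) (N := Real.log T) gz_cont gz_nonneg hN (dv_cont ((j : ℝ) * δ) T) (dv_nonneg _ T)
      (W := Real.exp ((j : ℝ) * δ * S)) (U := U) (T := T) (c := erf ((j : ℝ) * δ / 2)) (κ := κ) (r := a / 2)
      (Real.exp_pos _) (hlowW _ hjy) (by linarith) hU0 hUT (erf_nonneg (by positivity)) (erf_le_one _)
      (by positivity) (fun t => by
        have h2 : |min (MM (Real.exp ((j : ℝ) * δ * S)) T t) 2 - erf ((j : ℝ) * δ / 2)| = dv ((j : ℝ) * δ) T t := rfl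
        have h3 := neg_abs_le (min (MM (Real.exp ((j : ℝ) * δ * S)) T t) 2 - erf ((j : ℝ) * δ / 2))
        rw [h2] at h3
        have h4 : min (MM (Real.exp ((j : ℝ) * δ * S)) T t) 2 ≤ MM (Real.exp ((j : ℝ) * δ * S)) T t :=
          min_le_left _ _
        have h5 : MM (Real.exp ((j : ℝ) * δ * S)) T t = Mu gz (Real.log T) (Real.exp ((j : ℝ) * δ * S)) t := rfl
        linarith)
    have h6 := e1 j (Finset.mem_Icc.2 ⟨hj1, hj2⟩)
    calc (volume {t : ℝ | t ∈ Icc T (2 * T) ∧ MM U T t < erf ((j : ℝ) * δ / 2) - a}).toReal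
        ≤ (volume {t : ℝ | t ∈ Icc T (2 * T) ∧ Mu gz (Real.log T) U t < erf ((j : ℝ) * δ / 2) - κ - a / 2}).toReal := by
          apply meas_mono
          intro t _ ht
          rw [MM_eq] at ht
          linarith
      _ ≤ (∫ t in T..(3 * T), dv ((j : ℝ) * δ) T t) / (a / 2) := h1
      _ ≤ (a ^ 2 / 16 * T) / (a / 2) := by gcongr
      _ = a / 8 * T := by
          field_simp
          ring
      _ ≤ a * T := by
          gcongr
          linarith
  have hMc : Continuous (fun t => MM U T t) := Mu_cont gz_cont _ _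
  have hM0 : ∀ t, 0 ≤ MM U T t := Mu_nonneg gz_nonneg hN hU0
  rcases lt_or_ge i n with hin | hin
  · -- moderate windows
    have hup : ∫ t in T..(2 * T), min (MM U T t) 2 ≤ (erf (((i : ℝ) + 2) * δ / 2) + a) * T := by
      have hW : Real.exp (((i : ℝ) + 2) * δ * S) ≤ κ * T := by
        refine le_trans ?_ e3
        apply Real.exp_le_exp.2
        have : (i : ℝ) ≤ n := by exact_mod_cast hin.le
        gcongr
      have h1 := upper (g := gz) (N := Real.log T) gz_cont gz_nonneg hN (dv_cont (((i : ℝ) + 2) * δ) T)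
        (dv_nonneg _ T) (W := Real.exp (((i : ℝ) + 2) * δ * S)) (U := U) (T := T)
        (c := erf (((i : ℝ) + 2) * δ / 2)) (κ := κ) hU0 (hupW _ (by nlinarith)) (by linarith)
        (hW.trans (by nlinarith)) hT0 (Real.exp_pos _) (fun t => by
          have h2 : |min (MM (Real.exp (((i : ℝ) + 2) * δ * S)) T t) 2 - erf (((i : ℝ) + 2) * δ / 2)| =
            dv (((i : ℝ) + 2) * δ) T t := rfl
          have h3 := le_abs_self (min (MM (Real.exp (((i : ℝ) + 2) * δ * S)) T t) 2 - erf (((i : ℝ) + 2) * δ / 2))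
          rw [h2] at h3
          have h5 : MM (Real.exp (((i : ℝ) + 2) * δ * S)) T t =
            Mu gz (Real.log T) (Real.exp (((i : ℝ) + 2) * δ * S)) t := rfl
          rw [h5] at h3
          linarith)
      have h6 := e1 (i + 2) (Finset.mem_Icc.2 ⟨by omega, by omega⟩)
      push_cast at h6
      refine h1.trans ?_
      have h7 : a ^ 2 / 16 ≤ a / 16 := by nlinarith
      have h8 : a ^ 2 / 16 * T ≤ a / 16 * T := by gcongr
      rw [hκ] at hW ⊢
      nlinarith
    rcases lt_or_ge i 2 with hi3 | hi3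
    · -- small windows
      have hi4 : (i : ℝ) ≤ 1 := by exact_mod_cast Nat.lt_succ_iff.1 hi3
      refine core hMc hM0 hT0 hε hε1 ha0 le_rfl le_rfl (erf_nonneg (by positivity))
        (erf_mono (by nlinarith : y / 2 ≤ ((i : ℝ) + 2) * δ / 2)) (erf_le_one _) ?_ ?_ hup
      · rw [sub_zero]
        have h1 := erf_lip (a := 0) (b := ((i : ℝ) + 2) * δ / 2) (by positivity)
        rw [erf_zero, sub_zero, sub_zero] at h1
        refine h1.trans ?_
        rw [hδ]
        nlinarith
      · have h1 : {t : ℝ | t ∈ Icc T (2 * T) ∧ MM U T t < 0 - a} = ∅ := by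
          ext t
          simp only [mem_setOf_eq, mem_empty_iff_false, iff_false, not_and, not_lt]
          intro _
          have := hM0 t
          linarith
        rw [h1]
        simp
        positivity
    · -- middle windows
      have hi4 : (2 : ℝ) ≤ i := by exact_mod_cast hi3
      have hc1 : (((i - 1 : ℕ) : ℝ)) = (i : ℝ) - 1 := by
        rw [Nat.cast_sub (by omega)]
        simp
      have h2 := hlow (i - 1) (by omega) (by omega) (by rw [hc1]; linarith)
      rw [hc1] at h2
      refine core hMc hM0 hT0 hε hε1 ha0 le_rfl (erf_nonneg (by nlinarith)) (erf_mono (by nlinarith))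
        (erf_mono (by nlinarith : y / 2 ≤ ((i : ℝ) + 2) * δ / 2)) (erf_le_one _) ?_ h2 hup
      have h1 := erf_lip (a := ((i : ℝ) - 1) * δ / 2) (b := ((i : ℝ) + 2) * δ / 2) (by nlinarith)
      refine h1.trans ?_
      rw [hδ]
      nlinarith
  · -- long windows
    have hin' : (n : ℝ) ≤ i := by exact_mod_cast hin
    have hn2' : (2 : ℝ) ≤ n := by exact_mod_cast hn2
    have hc1 : (((n - 1 : ℕ) : ℝ)) = (n : ℝ) - 1 := by
      rw [Nat.cast_sub (by omega)]
      simp
    have h2 := hlow (n - 1) (by omega) (by omega) (by rw [hc1]; nlinarith)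
    rw [hc1] at h2
    refine core (cu := 1) hMc hM0 hT0 hε hε1 ha0 le_rfl (erf_nonneg (by nlinarith)) (erf_mono (by nlinarith))
      (erf_le_one _) le_rfl (by linarith) h2 ?_
    have h3 := mean (g := gz) (N := Real.log T) gz_cont hN (U := U) (T := T) (A := T * Real.log T + C * T) hU0 (by
      intro h hh0 hhU
      have h4 := hC T h (by linarith) hh0 (by linarith)
      have h5 := (abs_le.1 h4).2
      have h6 : ∫ t in T..(2 * T), gz (t + h) = ∫ t in T..(2 * T), ‖ze (t + h)‖ ^ 2 := rfl
      rw [h6]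
      linarith)
    have h4 : ∫ t in T..(2 * T), min (MM U T t) 2 ≤ ∫ t in T..(2 * T), Mu gz (Real.log T) U t := by
      apply intervalIntegral.integral_mono_on (by linarith)
      · exact Continuous.intervalIntegrable (hMc.min continuous_const) _ _
      · exact Continuous.intervalIntegrable hMc _ _
      · intro t _
        exact min_le_left _ _
    refine h4.trans (h3.trans ?_)
    have h5 : (T * Real.log T + C * T) / Real.log T = T + C / Real.log T * T := by
      field_simp
    rw [h5]
    nlinarith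

/-- **RED** -/
theorem red : J_RED := by
  intro hHLW hLaw ε hε
  have h := red_aux hHLW hLaw (ε := min ε 1) (lt_min hε one_pos) (min_le_right _ _)
  filter_upwards [h, eventually_gt_atTop 0] with T hT hT0 U hU1 hU2
  refine le_trans ?_ ((hT U hU1 hU2).trans (mul_le_mul_of_nonneg_right (min_le_left _ _) hT0.le))
  apply meas_mono
  intro t _ ht
  exact lt_of_le_of_lt (min_le_left _ _) ht

end Pool.Agent.Q237.EW
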