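import Pool.Agent.Q80.EW.Stm

set_option autoImplicit false

/-!
# Sums over blocks of primes
-/

open Filter Topology Finset

namespace Pool.Agent.Q237.EW

open Pool.Agent.Q80.EW

theorem zc_mono {y y' : ℝ} (h : y ≤ y') : zc y ≤ zc y' := by
  unfold zc
  exact Nat.ceil_le_ceil (Real.exp_le_exp.2 (Real.exp_le_exp.2 h))

theorem exp_le_log_zc (y : ℝ) : Real.exp y ≤ Real.log (zc y) := by
  rw [Real.le_log_iff_exp_le]
  · exact Nat.le_ceil _
  · have h1 := Nat.le_ceil (Real.exp (Real.exp y))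
    exact lt_of_lt_of_le (Real.exp_pos _) h1

theorem two_le_zc {y : ℝ} (hy : 0 ≤ y) : 2 ≤ zc y := by
  have h1 : (2 : ℝ) ≤ Real.exp (Real.exp y) := by
    have h2 : 1 ≤ Real.exp y := Real.one_le_exp hy
    have h3 := Real.add_one_le_exp (Real.exp y)
    linarith
  have h4 : (2 : ℝ) ≤ (zc y : ℝ) := h1.trans (Nat.le_ceil _)
  exact_mod_cast h4

/-- the primes between the levels `a` and `b` -/
noncomputable def bl (a b : ℝ) : Finset ℕ := (Finset.Ico (zc a) (zc b)).filter Nat.Prime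

theorem sum_ind {M : Type*} [AddCommMonoid M] {a b Y : ℝ} (hbY : b ≤ Y)
    (f : ℕ → M) (F : ℕ → ℝ → M) (h1 : ∀ p, F p 1 = f p) (h0 : ∀ p, F p 0 = 0) :
    ∑ p ∈ Nat.primesBelow (zc Y), F p (ind a b p) = ∑ p ∈ bl a b, f p := by
  classical
  have hsub : bl a b ⊆ Nat.primesBelow (zc Y) := by
    intro p hp
    unfold bl at hp
    rw [Finset.mem_filter, Finset.mem_Ico] at hp
    rw [Nat.mem_primesBelow]
    exact ⟨lt_of_lt_of_le hp.1.2 (zc_mono hbY), hp.2⟩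
  rw [← Finset.sum_subset hsub]
  · refine Finset.sum_congr rfl fun p hp => ?_
    unfold bl at hp
    rw [Finset.mem_filter, Finset.mem_Ico] at hp
    unfold ind
    rw [if_pos ⟨hp.2, hp.1.1, hp.1.2⟩, h1]
  · intro p _ hp
    unfold bl at hp
    rw [Finset.mem_filter, Finset.mem_Ico] at hp
    unfold ind
    rw [if_neg, h0]
    rintro ⟨e1, e2, e3⟩
    exact hp ⟨⟨e2, e3⟩, e1⟩

theorem sum_bl {a b : ℝ} (hab : a ≤ b) (f : ℕ → ℝ) :
    ∑ p ∈ bl a b, f p = ∑ p ∈ Nat.primesBelow (zc b), f p - ∑ p ∈ Nat.primesBelow (zc a), f p := by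
  classical
  have hd : Disjoint (Nat.primesBelow (zc a)) (bl a b) := by
    rw [Finset.disjoint_left]
    intro p hp hp'
    unfold bl at hp'
    rw [Finset.mem_filter, Finset.mem_Ico] at hp'
    rw [Nat.mem_primesBelow] at hp
    omega
  have hu : Nat.primesBelow (zc b) = Nat.primesBelow (zc a) ∪ bl a b := by
    ext p
    unfold bl
    rw [Finset.mem_union, Nat.mem_primesBelow, Nat.mem_primesBelow, Finset.mem_filter,
      Finset.mem_Ico]
    have := zc_mono hab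
    constructor
    · rintro ⟨h1, h2⟩
      by_cases h3 : p < zc a
      · exact Or.inl ⟨h3, h2⟩
      · exact Or.inr ⟨⟨by omega, h1⟩, h2⟩
    · rintro (⟨h1, h2⟩ | ⟨⟨h1, h2⟩, h3⟩)
      · exact ⟨by omega, h2⟩
      · exact ⟨h2, h3⟩
  rw [hu, Finset.sum_union hd]
  ring

theorem sum_bl_inv {a b : ℝ} (hab : a ≤ b) : ∑ p ∈ bl a b, 1 / (p : ℝ) = VV b - VV a := by
  rw [sum_bl hab]
  rfl

theorem VV_mono {a b : ℝ} (hab : a ≤ b) : VV a ≤ VV b := by
  have h1 := sum_bl_inv hab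
  have h2 : 0 ≤ ∑ p ∈ bl a b, 1 / (p : ℝ) := Finset.sum_nonneg fun p _ => by positivity
  linarith

theorem sum_sq_le (Z : ℕ) : ∑ p ∈ Nat.primesBelow Z, 1 / (p : ℝ) ^ 2 ≤ 2 := by
  have hs : Summable fun n : ℕ => 1 / (n : ℝ) ^ 2 := Real.summable_one_div_nat_pow.2 one_lt_two
  have h1 : ∑ p ∈ Nat.primesBelow Z, 1 / (p : ℝ) ^ 2 ≤ ∑' n : ℕ, 1 / (n : ℝ) ^ 2 :=
    hs.sum_le_tsum _ fun n _ => by positivity
  refine h1.trans ?_
  rw [hasSum_zeta_two.tsum_eq]
  have h2 := Real.pi_lt_d2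
  have h3 := Real.pi_pos
  nlinarith

/-- The character. -/
noncomputable def om (h : ℝ) (p : ℕ) : ℂ := (p : ℂ) ^ (-((h : ℂ) * Complex.I))

theorem norm_om {h : ℝ} {p : ℕ} (hp : 0 < p) : ‖om h p‖ = 1 := by
  unfold om
  rw [Complex.norm_natCast_cpow_of_pos hp]
  simp

theorem norm_re_om {h : ℝ} {p : ℕ} (hp : 0 < p) : |(om h p).re| ≤ 1 := by
  rw [← norm_om (h := h) hp]
  exact Complex.abs_re_le_norm _

theorem c1_eq (s0 s1 : ℕ) (h : ℝ) (v v' : ℕ → ℝ) {p : ℕ} (hp : 0 < p) :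
    c1 s0 s1 h v v' p = (s0 + v p) ^ 2 + (s1 + v' p) ^ 2 +
      2 * (s0 + v p) * (s1 + v' p) * (om h p).re := by
  have h1 : c1 s0 s1 h v v' p =
      ‖(((s0 : ℝ) + v p : ℝ) : ℂ) + (((s1 : ℝ) + v' p : ℝ) : ℂ) * om h p‖ ^ 2 := by
    unfold c1 om
    push_cast
    rfl
  have h2 : (om h p).re ^ 2 + (om h p).im ^ 2 = 1 := by
    have := norm_om (h := h) hp
    have h3 : ‖om h p‖ ^ 2 = 1 := by rw [this, one_pow]
    rw [← Complex.normSq_eq_norm_sq, Complex.normSq_apply] at h3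
    linarith
  rw [h1, ← Complex.normSq_eq_norm_sq, Complex.normSq_apply]
  simp only [Complex.add_re, Complex.add_im, Complex.mul_re, Complex.mul_im, Complex.ofReal_re,
    Complex.ofReal_im, zero_mul, sub_zero, add_zero, zero_add]
  linear_combination ((s1 : ℝ) + v' p) ^ 2 * h2

theorem om_div {h : ℝ} {p : ℕ} (hp : 0 < p) :
    (om h p).re / p = ((p : ℂ) ^ (-((1 : ℂ) + (h : ℂ) * Complex.I))).re := by
  have hp' : (p : ℂ) ≠ 0 := by exact_mod_cast hp.ne'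
  have h1 : (p : ℂ) ^ (-((1 : ℂ) + (h : ℂ) * Complex.I)) = om h p / p := by
    unfold om
    rw [neg_add, Complex.cpow_add _ _ hp', Complex.cpow_neg_one]
    field_simp
  rw [h1]
  have h2 : om h p / (p : ℂ) = om h p / ((p : ℝ) : ℂ) := by push_cast; rfl
  rw [h2, Complex.div_ofReal_re]

theorem sum_re_le {h : ℝ} (S : Finset ℕ) (hS : ∀ p ∈ S, 0 < p) :
    |∑ p ∈ S, (om h p).re / p| ≤ ‖∑ p ∈ S, (p : ℂ) ^ (-((1 : ℂ) + (h : ℂ) * Complex.I))‖ := by
  have h1 : ∑ p ∈ S, (om h p).re / p =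
      (∑ p ∈ S, (p : ℂ) ^ (-((1 : ℂ) + (h : ℂ) * Complex.I))).re := by
    rw [Complex.re_sum]
    exact Finset.sum_congr rfl fun p hp => om_div (hS p hp)
  rw [h1]
  exact Complex.abs_re_le_norm _

theorem wt_zero (Z : ℕ) : Wt Z 0 := fun p => ⟨by simp, fun _ => rfl⟩

theorem nm_pos_of {x y B : ℝ} (h1 : 1 ≤ x) (h : |Real.log x - y| ≤ B) : x ≤ Real.exp (y + B) := by
  have h2 : Real.log x ≤ y + B := by
    have := (abs_le.1 h).2
    linarith
  rwa [Real.log_le_iff_le_exp (by linarith)] at h2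

theorem tendsto_La : Tendsto La atTop atTop := Real.tendsto_log_atTop.comp Real.tendsto_log_atTop

theorem tendsto_Yt_div : Tendsto (fun T => Yt T / La T) atTop (𝓝 1) := by
  have h1 : Tendsto (fun x : ℝ => Real.log x / x) atTop (𝓝 0) := by
    have := Real.tendsto_pow_log_div_mul_add_atTop 1 0 1 one_ne_zero
    simpa using this
  have h2 : Tendsto (fun T => 1 - 2 * (Real.log (La T) / La T)) atTop (𝓝 (1 - 2 * 0)) :=
    ((h1.comp tendsto_La).const_mul 2).const_sub 1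
  rw [mul_zero, sub_zero] at h2
  refine h2.congr' ?_
  filter_upwards [tendsto_La.eventually_gt_atTop 0] with T hT
  unfold Yt
  field_simp

theorem ev_Yt : ∀ᶠ T in atTop, 0 ≤ Yt T ∧ Yt T ≤ La T ∧ 1 ≤ La T := by
  have h1 : ∀ᶠ T in atTop, (0 : ℝ) < Yt T / La T :=
    tendsto_Yt_div.eventually (lt_mem_nhds one_pos)
  filter_upwards [h1, tendsto_La.eventually_ge_atTop 1] with T hT h2
  have h3 : 0 < La T := by linarith
  refine ⟨?_, ?_, h2⟩
  · have := mul_pos hT h3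
    rw [div_mul_cancel₀ _ h3.ne'] at this
    exact this.le
  · unfold Yt
    have := Real.log_nonneg h2
    linarith

end Pool.Agent.Q237.EW
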