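import Pool.Agent.Q80.EW.Stm

set_option autoImplicit false

/-!
# A maximal inequality from fourth moments
-/

open Filter Topology Finset MeasureTheory

namespace Pool.Agent.Q237.EW

open Pool.Agent.Q80.EW

theorem sum_cl (r : ℕ) : ∑ l ∈ range (r + 1), (1 / 10 : ℝ) * (9 / 10) ^ (r - l) ≤ 1 := by
  have h1 := Finset.sum_range_reflect (fun j => (1 / 10 : ℝ) * (9 / 10) ^ j) (r + 1)
  have h2 : ∑ l ∈ range (r + 1), (1 / 10 : ℝ) * (9 / 10) ^ (r - l) =
      ∑ j ∈ range (r + 1), (1 / 10 : ℝ) * (9 / 10) ^ j := by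
    rw [← h1]
    refine Finset.sum_congr rfl fun l hl => ?_
    congr 2
  rw [h2, ← Finset.mul_sum, geom_sum_eq (by norm_num)]
  have h3 : (0 : ℝ) ≤ (9 / 10) ^ (r + 1) := by positivity
  have h4 : (1 / 10 : ℝ) * (((9 / 10) ^ (r + 1) - 1) / (9 / 10 - 1)) = 1 - (9 / 10) ^ (r + 1) := by
    ring
  rw [h4]
  linarith

theorem sum_lv (r : ℕ) : ∑ l ∈ range (r + 1), (2 : ℝ) ^ l / ((9 / 10) ^ (r - l)) ^ 4 ≤
    5 * 2 ^ r := by
  have h1 := Finset.sum_range_reflect (fun j => (2 : ℝ) ^ (r - j) / ((9 / 10) ^ j) ^ 4) (r + 1)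
  have h2 : ∑ l ∈ range (r + 1), (2 : ℝ) ^ l / ((9 / 10) ^ (r - l)) ^ 4 =
      ∑ j ∈ range (r + 1), (2 : ℝ) ^ (r - j) / ((9 / 10) ^ j) ^ 4 := by
    rw [← h1]
    refine Finset.sum_congr rfl fun l hl => ?_
    have hl' : l ≤ r := by
      have := Finset.mem_range.1 hl
      omega
    have e1 : r - (r + 1 - 1 - l) = l := by omega
    have e2 : r + 1 - 1 - l = r - l := by omega
    rw [e1, e2]
  have h3 : ∀ j ∈ range (r + 1), (2 : ℝ) ^ (r - j) / ((9 / 10) ^ j) ^ 4 ≤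
      2 ^ r * (8 / 10) ^ j := by
    intro j hj
    have hj' : j ≤ r := by
      have := Finset.mem_range.1 hj
      omega
    rw [div_le_iff₀ (by positivity)]
    have e1 : (2 : ℝ) ^ r = 2 ^ (r - j) * 2 ^ j := by
      rw [← pow_add]
      congr 1
      omega
    have e2 : (2 : ℝ) ^ r * (8 / 10) ^ j * ((9 / 10) ^ j) ^ 4 =
        2 ^ (r - j) * (2 * (8 / 10) * (9 / 10) ^ 4) ^ j := by
      rw [e1, mul_pow, mul_pow, ← pow_mul, ← pow_mul, mul_comm j 4]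
      ring
    rw [e2]
    have e3 : (1 : ℝ) ≤ (2 * (8 / 10) * (9 / 10) ^ 4) ^ j := one_le_pow₀ (by norm_num)
    have e4 : (0 : ℝ) ≤ 2 ^ (r - j) := by positivity
    nlinarith
  rw [h2]
  refine (Finset.sum_le_sum h3).trans ?_
  rw [← Finset.mul_sum, geom_sum_eq (by norm_num)]
  have h4 : (0 : ℝ) ≤ (8 / 10) ^ (r + 1) := by positivity
  have h5 : (((8 / 10 : ℝ)) ^ (r + 1) - 1) / (8 / 10 - 1) = 5 * (1 - (8 / 10) ^ (r + 1)) := by
    ring
  rw [h5]
  have h6 : (0 : ℝ) < 2 ^ r := by positivity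
  nlinarith

theorem ch : J_CH := by
  refine ⟨50000, by norm_num, ?_⟩
  intro Ω _ μ _ n S K hK hmeas hmom a ha
  rcases Nat.eq_zero_or_pos n with hn | hn
  · subst hn
    have h1 : {ω | ∃ j : ℕ, j ≤ 0 ∧ a < |S j ω - S 0 ω|} = ∅ := by
      rw [Set.eq_empty_iff_forall_notMem]
      rintro ω ⟨j, hj, hj'⟩
      obtain rfl : j = 0 := Nat.le_zero.1 hj
      rw [sub_self, abs_zero] at hj'
      linarith
    rw [h1, measureReal_empty]
    simp
  set r := Nat.log 2 n with hr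
  have hr1 : 2 ^ r ≤ n := Nat.pow_log_le_self 2 hn.ne'
  have hr2 : n < 2 ^ (r + 1) := Nat.lt_pow_succ_log_self (by norm_num) n
  set c : ℕ → ℝ := fun l => (1 / 10 : ℝ) * (9 / 10) ^ (r - l) with hc
  have hc0 : ∀ l, 0 < c l := fun l => by
    rw [hc]
    positivity
  let E : ℕ → ℕ → Set Ω := fun l i => {ω | a * c l < |S (i * 2 ^ l) ω - S ((i - 1) * 2 ^ l) ω|}
  have hsub : {ω | ∃ j : ℕ, j ≤ n ∧ a < |S j ω - S 0 ω|} ⊆
      ⋃ l ∈ range (r + 1), ⋃ i ∈ Finset.Icc 1 (n / 2 ^ l), E l i := by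
    rintro ω ⟨j, hj, hj'⟩
    by_contra hne
    simp only [Set.mem_iUnion, not_exists] at hne
    have hsmall : ∀ l ∈ range (r + 1),
        |S (j / 2 ^ l * 2 ^ l) ω - S (j / 2 ^ (l + 1) * 2 ^ (l + 1)) ω| ≤ a * c l := by
      intro l hl
      have e1 : j / 2 ^ (l + 1) = (j / 2 ^ l) / 2 := by
        rw [pow_succ, Nat.div_div_eq_div_mul]
      set i := j / 2 ^ l with hi
      have hac : 0 < a * c l := mul_pos ha (hc0 l)
      rcases Nat.even_or_odd' i with ⟨m, hm | hm⟩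
      · have e2 : i / 2 = m := by omega
        have e3 : m * 2 ^ (l + 1) = i * 2 ^ l := by
          rw [hm, pow_succ]
          ring
        rw [e1, e2, e3, sub_self, abs_zero]
        exact hac.le
      · have e2 : i / 2 = m := by omega
        have e3 : m * 2 ^ (l + 1) = (i - 1) * 2 ^ l := by
          have : i - 1 = 2 * m := by omega
          rw [this, pow_succ]
          ring
        rw [e1, e2, e3]
        have hmem : i ∈ Finset.Icc 1 (n / 2 ^ l) := by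
          rw [Finset.mem_Icc]
          exact ⟨by omega, Nat.div_le_div_right hj⟩
        have h5 := hne l hl i hmem
        exact not_lt.1 h5
    have htel := Finset.sum_range_sub' (fun l => S (j / 2 ^ l * 2 ^ l) ω) (r + 1)
    have e0 : j / 2 ^ 0 * 2 ^ 0 = j := by simp
    have e1 : j / 2 ^ (r + 1) * 2 ^ (r + 1) = 0 := by
      rw [Nat.div_eq_of_lt (lt_of_le_of_lt hj hr2), zero_mul]
    rw [e0, e1] at htel
    have h1 : |S j ω - S 0 ω| ≤ ∑ l ∈ range (r + 1), a * c l := by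
      rw [← htel]
      exact (Finset.abs_sum_le_sum_abs _ _).trans (Finset.sum_le_sum hsmall)
    rw [← Finset.mul_sum] at h1
    have h2 := sum_cl r
    have h3 : a * ∑ l ∈ range (r + 1), c l ≤ a * 1 := mul_le_mul_of_nonneg_left h2 ha.le
    linarith
  have hE : ∀ l, ∀ i ∈ Finset.Icc 1 (n / 2 ^ l),
      μ.real (E l i) ≤ K * ((2 : ℝ) ^ l) ^ 2 / (a * c l) ^ 4 := by
    intro l i hi
    rw [Finset.mem_Icc] at hi
    have hac : 0 < a * c l := mul_pos ha (hc0 l)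
    have h1 : i * 2 ^ l ≤ n := by
      exact (Nat.mul_le_mul_right _ hi.2).trans (Nat.div_mul_le_self n _)
    have h2 : (i - 1) * 2 ^ l ≤ i * 2 ^ l := Nat.mul_le_mul_right _ (Nat.sub_le i 1)
    obtain ⟨hint, hle⟩ := hmom (i * 2 ^ l) ((i - 1) * 2 ^ l) h2 h1
    have h3 : (((i * 2 ^ l : ℕ) : ℝ) - ((i - 1) * 2 ^ l : ℕ)) = 2 ^ l := by
      have h4 : ((i - 1 : ℕ) : ℝ) = (i : ℝ) - 1 := by
        rw [Nat.cast_sub hi.1, Nat.cast_one]
      push_cast
      rw [h4]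
      ring
    rw [h3] at hle
    have h5 := mul_meas_ge_le_integral_of_nonneg (μ := μ)
      (f := fun ω => (S (i * 2 ^ l) ω - S ((i - 1) * 2 ^ l) ω) ^ 4)
      (Eventually.of_forall fun ω => by positivity) hint ((a * c l) ^ 4)
    have h6 : μ.real (E l i) ≤
        μ.real {ω | (a * c l) ^ 4 ≤ (S (i * 2 ^ l) ω - S ((i - 1) * 2 ^ l) ω) ^ 4} := by
      refine measureReal_mono fun ω hω => ?_
      have h7 : a * c l < |S (i * 2 ^ l) ω - S ((i - 1) * 2 ^ l) ω| := hω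
      have h8 := pow_le_pow_left₀ hac.le h7.le 4
      have h9 : |S (i * 2 ^ l) ω - S ((i - 1) * 2 ^ l) ω| ^ 4 =
          (S (i * 2 ^ l) ω - S ((i - 1) * 2 ^ l) ω) ^ 4 := by
        rw [← abs_pow, abs_of_nonneg (by positivity)]
      rw [h9] at h8
      exact h8
    rw [le_div_iff₀ (by positivity)]
    calc μ.real (E l i) * (a * c l) ^ 4 ≤
        μ.real {ω | (a * c l) ^ 4 ≤ (S (i * 2 ^ l) ω - S ((i - 1) * 2 ^ l) ω) ^ 4} *
          (a * c l) ^ 4 := mul_le_mul_of_nonneg_right h6 (by positivity)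
      _ = (a * c l) ^ 4 *
          μ.real {ω | (a * c l) ^ 4 ≤ (S (i * 2 ^ l) ω - S ((i - 1) * 2 ^ l) ω) ^ 4} := mul_comm _ _
      _ ≤ K * ((2 : ℝ) ^ l) ^ 2 := h5.trans hle
  have hlev : ∀ l ∈ range (r + 1), μ.real (⋃ i ∈ Finset.Icc 1 (n / 2 ^ l), E l i) ≤
      10000 * K * n / a ^ 4 * ((2 : ℝ) ^ l / ((9 / 10) ^ (r - l)) ^ 4) := by
    intro l _
    have h1 := measureReal_biUnion_finset_le (μ := μ) (Finset.Icc 1 (n / 2 ^ l)) (E l)
    refine h1.trans ((Finset.sum_le_sum (hE l)).trans ?_)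
    rw [Finset.sum_const, Nat.card_Icc, nsmul_eq_mul, Nat.add_sub_cancel]
    have h2 : ((n / 2 ^ l : ℕ) : ℝ) ≤ n / 2 ^ l := by
      have := @Nat.cast_div_le ℝ _ _ _ n (2 ^ l)
      push_cast at this
      exact this
    have h3 : 0 ≤ K * ((2 : ℝ) ^ l) ^ 2 / (a * c l) ^ 4 := by
      have := hc0 l
      positivity
    refine (mul_le_mul_of_nonneg_right h2 h3).trans (le_of_eq ?_)
    rw [hc]
    field_simp
    ring
  have hne : (⋃ l ∈ range (r + 1), ⋃ i ∈ Finset.Icc 1 (n / 2 ^ l), E l i) =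
      ⋃ l ∈ range (r + 1), (⋃ i ∈ Finset.Icc 1 (n / 2 ^ l), E l i) := rfl
  calc μ.real {ω | ∃ j : ℕ, j ≤ n ∧ a < |S j ω - S 0 ω|}
      ≤ μ.real (⋃ l ∈ range (r + 1), ⋃ i ∈ Finset.Icc 1 (n / 2 ^ l), E l i) :=
        measureReal_mono hsub (measure_ne_top _ _)
    _ ≤ ∑ l ∈ range (r + 1), μ.real (⋃ i ∈ Finset.Icc 1 (n / 2 ^ l), E l i) :=
        measureReal_biUnion_finset_le _ _
    _ ≤ ∑ l ∈ range (r + 1),
        10000 * K * n / a ^ 4 * ((2 : ℝ) ^ l / ((9 / 10) ^ (r - l)) ^ 4) :=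
        Finset.sum_le_sum hlev
    _ = 10000 * K * n / a ^ 4 * ∑ l ∈ range (r + 1), ((2 : ℝ) ^ l / ((9 / 10) ^ (r - l)) ^ 4) := by
        rw [Finset.mul_sum]
    _ ≤ 10000 * K * n / a ^ 4 * (5 * 2 ^ r) :=
        mul_le_mul_of_nonneg_left (sum_lv r) (by positivity)
    _ ≤ 10000 * K * n / a ^ 4 * (5 * n) := by
        refine mul_le_mul_of_nonneg_left ?_ (by positivity)
        have : ((2 : ℝ)) ^ r ≤ n := by exact_mod_cast hr1
        linarith
    _ = 50000 * K * (n : ℝ) ^ 2 / a ^ 4 := by ring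

end Pool.Agent.Q237.EW
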