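import Pool.Agent.Q80.EW.Stm

set_option autoImplicit false

/-!
# The truncated exponential is near the exponential
-/

open Filter Topology Finset

namespace Pool.Agent.Q237.EW

open Pool.Agent.Q80.EW

theorem exp_21 : Real.exp (21 / 10 : ℝ) < 9 := by
  have h1 : Real.exp (21 / 10 : ℝ) ^ 10 = Real.exp 1 ^ 21 := by
    rw [← Real.exp_nat_mul, ← Real.exp_nat_mul]
    norm_num
  have h2 : Real.exp 1 ^ 21 < (9 : ℝ) ^ 10 := by
    have h3 := Real.exp_one_lt_d9
    have h4 : Real.exp 1 ^ 21 ≤ (2.7182818286 : ℝ) ^ 21 :=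
      pow_le_pow_left₀ (Real.exp_pos 1).le h3.le 21
    refine h4.trans_lt ?_
    norm_num
  rw [← h1] at h2
  exact lt_of_pow_lt_pow_left₀ 10 (by norm_num) h2

theorem et : J_ET := by
  have hlim : Tendsto (fun l : ℕ => 6 * (9 / 10 : ℝ) ^ l) atTop (𝓝 0) := by
    have h1 := (tendsto_pow_atTop_nhds_zero_of_lt_one (r := (9 / 10 : ℝ)) (by norm_num)
      (by norm_num)).const_mul 6
    simpa using h1
  filter_upwards [hlim.eventually (gt_mem_nhds (by norm_num : (0 : ℝ) < 1))] with l hl w hw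
  set x := w.re with hx
  have hl0 : (0 : ℝ) ≤ l := Nat.cast_nonneg l
  -- the remainder
  set R : ℝ := 2 * (Real.exp 1 / 10) ^ (l + 1) with hR
  have hR0 : 0 ≤ R := by positivity
  have hrem : ‖Complex.exp w - eT l w‖ ≤ R := by
    have h1 : ‖w‖ / ((l + 1 : ℕ).succ : ℝ) ≤ 1 / 2 := by
      rw [div_le_iff₀ (by positivity)]
      push_cast
      linarith
    have h2 := Complex.exp_bound' h1
    refine h2.trans ?_
    rw [hR, mul_comm]
    refine mul_le_mul_of_nonneg_left ?_ (by norm_num)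
    have h3 := Real.pow_div_factorial_le_exp (x := ((l + 1 : ℕ) : ℝ)) (by positivity) (l + 1)
    have h4 : ‖w‖ ≤ (1 / 10) * ((l + 1 : ℕ) : ℝ) := by
      push_cast
      linarith
    have h5 : ‖w‖ ^ (l + 1) ≤ ((1 / 10) * ((l + 1 : ℕ) : ℝ)) ^ (l + 1) :=
      pow_le_pow_left₀ (norm_nonneg _) h4 _
    have h6 : (0 : ℝ) < ((l + 1).factorial : ℝ) := by exact_mod_cast (l + 1).factorial_pos
    calc ‖w‖ ^ (l + 1) / ((l + 1).factorial : ℝ)
        ≤ ((1 / 10) * ((l + 1 : ℕ) : ℝ)) ^ (l + 1) / ((l + 1).factorial : ℝ) :=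
          div_le_div_of_nonneg_right h5 h6.le
      _ = (1 / 10) ^ (l + 1) * (((l + 1 : ℕ) : ℝ) ^ (l + 1) / ((l + 1).factorial : ℝ)) := by
          rw [mul_pow, mul_div_assoc]
      _ ≤ (1 / 10) ^ (l + 1) * Real.exp ((l + 1 : ℕ) : ℝ) :=
          mul_le_mul_of_nonneg_left h3 (by positivity)
      _ = (Real.exp 1 / 10) ^ (l + 1) := by
          have h8 : Real.exp ((l + 1 : ℕ) : ℝ) = Real.exp 1 ^ (l + 1) := by
            rw [← Real.exp_nat_mul, mul_one]
          rw [h8, ← mul_pow]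
          congr 1
          ring
  have hE : ‖Complex.exp w‖ = Real.exp x := Complex.norm_exp w
  have hxl : -((l : ℝ) / 10) ≤ x := by
    have h1 : |w.re| ≤ ‖w‖ := Complex.abs_re_le_norm w
    have h2 := neg_abs_le w.re
    linarith
  -- the key inequality
  have hkey : 3 * R ≤ Real.exp (-(l : ℝ)) * Real.exp x := by
    have h1 : Real.exp (-(l : ℝ)) * Real.exp (-((l : ℝ) / 10)) ≤
        Real.exp (-(l : ℝ)) * Real.exp x :=
      mul_le_mul_of_nonneg_left (Real.exp_le_exp.2 hxl) (Real.exp_pos _).le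
    refine le_trans ?_ h1
    have h2 : 3 * R * (Real.exp (l : ℝ) * Real.exp ((l : ℝ) / 10)) ≤ 1 := by
      have h3 : 3 * R * (Real.exp (l : ℝ) * Real.exp ((l : ℝ) / 10)) =
          6 * (Real.exp 1 / 10) * (Real.exp (21 / 10) / 10) ^ l := by
        rw [hR, pow_succ, div_pow, div_pow, ← Real.exp_nat_mul 1, ← Real.exp_nat_mul (21 / 10)]
        have h4 : Real.exp (l * 1) * (Real.exp (l : ℝ) * Real.exp ((l : ℝ) / 10)) =
            Real.exp (l * (21 / 10)) := by
          rw [← Real.exp_add, ← Real.exp_add]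
          congr 1
          ring
        rw [← h4]
        ring
      rw [h3]
      have h5 : Real.exp 1 / 10 ≤ 1 := by
        have := Real.exp_one_lt_d9
        rw [div_le_one (by norm_num)]
        linarith
      have h6 : (Real.exp (21 / 10) / 10) ^ l ≤ (9 / 10 : ℝ) ^ l := by
        refine pow_le_pow_left₀ (by positivity) ?_ l
        have := exp_21
        linarith
      calc 6 * (Real.exp 1 / 10) * (Real.exp (21 / 10) / 10) ^ l
          ≤ 6 * 1 * (9 / 10 : ℝ) ^ l := by
            refine mul_le_mul ?_ h6 (by positivity) (by norm_num)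
            exact mul_le_mul_of_nonneg_left h5 (by norm_num)
        _ ≤ 1 := by
            rw [mul_one]
            exact hl.le
    have h7 : Real.exp (-(l : ℝ)) * Real.exp (-((l : ℝ) / 10)) *
        (Real.exp (l : ℝ) * Real.exp ((l : ℝ) / 10)) = 1 := by
      rw [Real.exp_neg, Real.exp_neg]
      have := Real.exp_pos (l : ℝ)
      have := Real.exp_pos ((l : ℝ) / 10)
      field_simp
    have h8 : 0 < Real.exp (l : ℝ) * Real.exp ((l : ℝ) / 10) := by positivity
    have h9 : 3 * R * (Real.exp (l : ℝ) * Real.exp ((l : ℝ) / 10)) ≤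
        Real.exp (-(l : ℝ)) * Real.exp (-((l : ℝ) / 10)) *
        (Real.exp (l : ℝ) * Real.exp ((l : ℝ) / 10)) := by
      rw [h7]
      exact h2
    exact le_of_mul_le_mul_right h9 h8
  have hRE : R ≤ Real.exp x := by
    have h1 : Real.exp (-(l : ℝ)) ≤ 1 := Real.exp_le_one_iff.2 (by linarith)
    have h2 := Real.exp_pos x
    nlinarith
  have h2x : Real.exp (2 * x) = Real.exp x * Real.exp x := by
    rw [← Real.exp_add]
    congr 1
    ring
  have hd : |‖eT l w‖ - Real.exp x| ≤ R := by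
    rw [← hE]
    refine (abs_norm_sub_norm_le _ _).trans ?_
    rw [norm_sub_rev]
    exact hrem
  have hup : ‖eT l w‖ ≤ 2 * Real.exp x := by
    have := (abs_le.1 hd).2
    linarith
  have hsplit : ‖eT l w‖ ^ 2 - Real.exp (2 * x) =
      (‖eT l w‖ - Real.exp x) * (‖eT l w‖ + Real.exp x) := by
    rw [h2x]
    ring
  rw [hsplit, abs_mul, abs_of_nonneg (by positivity : 0 ≤ ‖eT l w‖ + Real.exp x)]
  calc |‖eT l w‖ - Real.exp x| * (‖eT l w‖ + Real.exp x) ≤ R * (3 * Real.exp x) := by
        refine mul_le_mul hd ?_ (by positivity) hR0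
        linarith
    _ = 3 * R * Real.exp x := by ring
    _ ≤ Real.exp (-(l : ℝ)) * Real.exp x * Real.exp x :=
        mul_le_mul_of_nonneg_right hkey (Real.exp_pos x).le
    _ = Real.exp (-(l : ℝ)) * Real.exp (2 * x) := by
        rw [h2x]
        ring

end Pool.Agent.Q237.EW
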