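import Pool.Agent.Q237.EW.Near

set_option autoImplicit false

/-!
# Asymptotic consequences of the Euler products: one point and two points
-/

open Filter Topology Finset

namespace Pool.Agent.Q237.EW

open Pool.Agent.Q80.EW

/-- the lower end of a block -/
noncomputable def al (T : ℝ) (m : ℕ) (i : Fin m) : ℝ := (i : ℝ) * (Yt T / m)

/-- the upper end of a block -/
noncomputable def be (T : ℝ) (m : ℕ) (i : Fin m) : ℝ := ((i : ℝ) + 1) * (Yt T / m)

/-- weights constant on the blocks -/
noncomputable def ws (T : ℝ) (m : ℕ) (c : Fin m → ℝ) (p : ℕ) : ℝ :=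
  ∑ i : Fin m, c i * ind (al T m i) (be T m i) p

/-- the sum over a block -/
noncomputable def dV (T : ℝ) (m : ℕ) (i : Fin m) : ℝ := VV (be T m i) - VV (al T m i)

variable {T : ℝ} {m : ℕ}

theorem al_nonneg (hY : 0 ≤ Yt T) (i : Fin m) : 0 ≤ al T m i := by
  unfold al
  positivity

theorem al_le_be (hY : 0 ≤ Yt T) (i : Fin m) : al T m i ≤ be T m i := by
  unfold al be
  have h1 : 0 ≤ Yt T / m := by positivity
  nlinarith

theorem be_le (hY : 0 ≤ Yt T) (i : Fin m) : be T m i ≤ Yt T := by
  unfold be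
  have hm : (0 : ℝ) < m := by
    have := i.pos
    exact_mod_cast this
  have h1 : (i : ℝ) + 1 ≤ m := by exact_mod_cast i.isLt
  calc ((i : ℝ) + 1) * (Yt T / m) ≤ m * (Yt T / m) :=
        mul_le_mul_of_nonneg_right h1 (by positivity)
    _ = Yt T := by field_simp

theorem be_le_al (hY : 0 ≤ Yt T) {i j : Fin m} (hij : i < j) : be T m i ≤ al T m j := by
  unfold be al
  have h1 : (i : ℝ) + 1 ≤ (j : ℝ) := by exact_mod_cast hij
  exact mul_le_mul_of_nonneg_right h1 (by positivity)

theorem ind_mul (hY : 0 ≤ Yt T) (i j : Fin m) (p : ℕ) :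
    ind (al T m i) (be T m i) p * ind (al T m j) (be T m j) p =
      if i = j then ind (al T m i) (be T m i) p else 0 := by
  by_cases hij : i = j
  · subst hij
    rw [if_pos rfl, ← sq, ind_sq]
  · rw [if_neg hij]
    have key : ∀ i j : Fin m, i < j →
        ind (al T m i) (be T m i) p * ind (al T m j) (be T m j) p = 0 := by
      intro i j h
      unfold ind
      by_cases h1 : p.Prime ∧ zc (al T m i) ≤ p ∧ p < zc (be T m i)
      · rw [if_neg (c := p.Prime ∧ zc (al T m j) ≤ p ∧ p < zc (be T m j)), mul_zero]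
        rintro ⟨-, h2, -⟩
        have := zc_mono (be_le_al hY h)
        omega
      · rw [if_neg h1, zero_mul]
    rcases lt_or_gt_of_ne hij with h | h
    · exact key i j h
    · rw [mul_comm]
      exact key j i h

theorem ws_mul (hY : 0 ≤ Yt T) (c d : Fin m → ℝ) (p : ℕ) :
    ws T m c p * ws T m d p = ws T m (fun i => c i * d i) p := by
  unfold ws
  rw [Finset.sum_mul_sum]
  refine Finset.sum_congr rfl fun i _ => ?_
  rw [Finset.sum_eq_single i]
  · have h1 := ind_mul hY i i p
    rw [if_pos rfl] at h1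
    calc c i * ind (al T m i) (be T m i) p * (d i * ind (al T m i) (be T m i) p) =
        c i * d i * (ind (al T m i) (be T m i) p * ind (al T m i) (be T m i) p) := by ring
      _ = _ := by rw [h1]
  · intro j _ hj
    have h1 := ind_mul hY i j p
    rw [if_neg (Ne.symm hj)] at h1
    calc c i * ind (al T m i) (be T m i) p * (d j * ind (al T m j) (be T m j) p) =
        c i * d j * (ind (al T m i) (be T m i) p * ind (al T m j) (be T m j) p) := by ring
      _ = 0 := by rw [h1, mul_zero]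
  · intro h
    exact absurd (Finset.mem_univ _) h

theorem ws_add (c d : Fin m → ℝ) (p : ℕ) :
    ws T m c p + ws T m d p = ws T m (fun i => c i + d i) p := by
  unfold ws
  rw [← Finset.sum_add_distrib]
  exact Finset.sum_congr rfl fun i _ => by ring

theorem ws_abs (c : Fin m → ℝ) (p : ℕ) : |ws T m c p| ≤ ∑ i, |c i| := by
  unfold ws
  refine (Finset.abs_sum_le_sum_abs _ _).trans (Finset.sum_le_sum fun i _ => ?_)
  rw [abs_mul, abs_of_nonneg (ind_nonneg _ _ p)]
  have := ind_le_one (al T m i) (be T m i) p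
  have := ind_nonneg (al T m i) (be T m i) p
  nlinarith [abs_nonneg (c i)]

theorem ws_zero (hY : 0 ≤ Yt T) (c : Fin m → ℝ) {p : ℕ} (hp : zc (Yt T) ≤ p) :
    ws T m c p = 0 := by
  unfold ws
  refine Finset.sum_eq_zero fun i _ => ?_
  rw [ind_zero (be_le hY i) hp, mul_zero]

theorem wt_ws (hY : 0 ≤ Yt T) (c : Fin m → ℝ) (hc : ∑ i, |c i| ≤ 2) :
    Wt (zc (Yt T)) (ws T m c) := fun p => ⟨(ws_abs c p).trans hc, fun hp => ws_zero hY c hp⟩

theorem sum_ws (hY : 0 ≤ Yt T) (c : Fin m → ℝ) :
    ∑ p ∈ Nat.primesBelow (zc (Yt T)), ws T m c p / (p : ℝ) = ∑ i, c i * dV T m i := by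
  unfold ws
  simp only [Finset.sum_div]
  rw [Finset.sum_comm]
  refine Finset.sum_congr rfl fun i _ => ?_
  exact sum_ind_inv (al_le_be hY i) (be_le hY i) (c i)

theorem sum_ws_om (hY : 0 ≤ Yt T) (c : Fin m → ℝ) (h : ℝ) :
    ∑ p ∈ Nat.primesBelow (zc (Yt T)), ws T m c p * (om h p).re / (p : ℝ) =
      ∑ i, c i * ∑ p ∈ bl (al T m i) (be T m i), (om h p).re / p := by
  unfold ws
  simp only [Finset.sum_mul, Finset.sum_div]
  rw [Finset.sum_comm]
  refine Finset.sum_congr rfl fun i _ => ?_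
  have h1 := sum_ind (a := al T m i) (be_le hY i) (fun p : ℕ => c i * ((om h p).re / p))
    (fun p x => c i * x * (om h p).re / (p : ℝ)) (fun p => by ring) (fun p => by ring)
  rw [h1, Finset.mul_sum]

theorem sum_abs_ws (c d : Fin m → ℝ) (Z : ℕ) :
    ∑ p ∈ Nat.primesBelow Z, (|ws T m c p| + |ws T m d p|) / (p : ℝ) ^ 2 ≤
      (∑ i, |c i| + ∑ i, |d i|) * 2 := by
  have h1 : ∀ p ∈ Nat.primesBelow Z, (|ws T m c p| + |ws T m d p|) / (p : ℝ) ^ 2 ≤
      (∑ i, |c i| + ∑ i, |d i|) * (1 / (p : ℝ) ^ 2) := by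
    intro p _
    rw [mul_one_div]
    exact div_le_div_of_nonneg_right (add_le_add (ws_abs c p) (ws_abs d p)) (by positivity)
  refine (Finset.sum_le_sum h1).trans ?_
  rw [← Finset.mul_sum]
  have h2 : 0 ≤ ∑ i, |c i| + ∑ i, |d i| :=
    add_nonneg (Finset.sum_nonneg fun _ _ => abs_nonneg _)
      (Finset.sum_nonneg fun _ _ => abs_nonneg _)
  exact mul_le_mul_of_nonneg_left (sum_sq_le Z) h2

/-- the coefficients -/
noncomputable def cc (T : ℝ) {m : ℕ} (u : Fin m → ℝ) (i : Fin m) : ℝ :=
  u i / (2 * Real.sqrt (La T))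

theorem wu_eq (T : ℝ) (m : ℕ) (u : Fin m → ℝ) : wu T m u = ws T m (cc T u) := rfl

theorem vu_eq (T : ℝ) (m : ℕ) (u : Fin m → ℝ) :
    vu T m u = ∑ i, 2 * cc T u i * dV T m i := by
  unfold vu
  refine Finset.sum_congr rfl fun i _ => ?_
  unfold cc dV be al
  ring

theorem tendsto_inv_sqrt : Tendsto (fun T => 1 / Real.sqrt (La T)) atTop (𝓝 0) := by
  have h1 : Tendsto (fun T => Real.sqrt (La T)) atTop atTop :=
    Real.tendsto_sqrt_atTop.comp tendsto_La
  simp only [one_div]
  exact h1.inv_tendsto_atTop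

theorem tendsto_cc (u : Fin m → ℝ) : Tendsto (fun T => ∑ i, |cc T u i|) atTop (𝓝 0) := by
  have h1 : ∀ i, Tendsto (fun T => |cc T u i|) atTop (𝓝 0) := by
    intro i
    have h2 := (tendsto_inv_sqrt.const_mul (u i / 2)).abs
    rw [mul_zero, abs_zero] at h2
    refine h2.congr fun T => ?_
    unfold cc
    congr 1
    by_cases h : Real.sqrt (La T) = 0
    · rw [h]
      simp
    · field_simp
  have h3 := tendsto_finsetSum (Finset.univ : Finset (Fin m)) (fun i _ => h1 i)
  simpa using h3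

theorem tendsto_dV (hM : J_MERT) (hm : 1 ≤ m) (i : Fin m) :
    Tendsto (fun T => dV T m i / La T) atTop (𝓝 (1 / m)) := by
  obtain ⟨D, hM⟩ := hM
  have hm' : (0 : ℝ) < m := by exact_mod_cast hm
  have h1 : Tendsto (fun T => Yt T / La T * (1 / m)) atTop (𝓝 (1 * (1 / m))) :=
    tendsto_Yt_div.mul_const _
  rw [one_mul] at h1
  have h2 : Tendsto (fun T => dV T m i / La T - Yt T / La T * (1 / m)) atTop (𝓝 0) := by
    have h3 : Tendsto (fun T => 2 * |D| * (La T)⁻¹) atTop (𝓝 0) := by
      have := (tendsto_inv_atTop_zero.comp tendsto_La).const_mul (2 * |D|)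
      simpa using this
    refine squeeze_zero_norm' ?_ h3
    filter_upwards [ev_Yt] with T hT
    obtain ⟨hY, hYL, hL⟩ := hT
    have hL0 : 0 < La T := by linarith
    have e1 := abs_le.1 (hM (be T m i) ((al_nonneg hY i).trans (al_le_be hY i)))
    have e2 := abs_le.1 (hM (al T m i) (al_nonneg hY i))
    have e3 : be T m i - al T m i = Yt T / m := by
      unfold be al
      ring
    have e4 : |dV T m i - Yt T / m| ≤ 2 * |D| := by
      unfold dV
      have := le_abs_self D
      rw [abs_le]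
      constructor <;> linarith
    have e5 : dV T m i / La T - Yt T / La T * (1 / m) = (dV T m i - Yt T / m) * (La T)⁻¹ := by
      field_simp
    rw [e5, Real.norm_eq_abs, abs_mul, abs_of_pos (inv_pos.2 hL0)]
    exact mul_le_mul_of_nonneg_right e4 (inv_pos.2 hL0).le
  have h4 := h2.add h1
  simpa using h4

theorem tendsto_sq (hM : J_MERT) (hm : 1 ≤ m) (u : Fin m → ℝ) :
    Tendsto (fun T => ∑ i, cc T u i ^ 2 * dV T m i) atTop (𝓝 ((∑ i, u i ^ 2) / (4 * m))) := by
  have hm' : (0 : ℝ) < m := by exact_mod_cast hm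
  have h1 : ∀ i, Tendsto (fun T => cc T u i ^ 2 * dV T m i) atTop (𝓝 (u i ^ 2 / 4 * (1 / m))) := by
    intro i
    have h2 := (tendsto_dV hM hm i).const_mul (u i ^ 2 / 4)
    refine h2.congr' ?_
    filter_upwards [ev_Yt] with T hT
    obtain ⟨hY, hYL, hL⟩ := hT
    have hL0 : 0 < La T := by linarith
    unfold cc
    rw [div_pow, mul_pow, Real.sq_sqrt hL0.le]
    field_simp
    ring
  have h3 := tendsto_finsetSum (Finset.univ : Finset (Fin m)) (fun i _ => h1 i)
  have h4 : ∑ i, u i ^ 2 / 4 * (1 / (m : ℝ)) = (∑ i, u i ^ 2) / (4 * m) := by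
    rw [Finset.sum_div]
    refine Finset.sum_congr rfl fun i _ => ?_
    field_simp
  rwa [h4] at h3

theorem one (hEU : J_EU) (hM : J_MERT) : J_ONE := by
  obtain ⟨C, hC, hEU⟩ := hEU
  intro m u hm
  -- the logarithm
  have hlog : Tendsto (fun T => Real.log (nm (GG 1 0 (zc (Yt T)) 0 (wu T m u) 0)) -
      Real.log (nm (GG 1 0 (zc (Yt T)) 0 0 0)) - vu T m u) atTop
      (𝓝 ((∑ i, u i ^ 2) / (4 * m))) := by
    have h1 := tendsto_sq hM hm u
    have h2 : Tendsto (fun T => Real.log (nm (GG 1 0 (zc (Yt T)) 0 (wu T m u) 0)) -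
      Real.log (nm (GG 1 0 (zc (Yt T)) 0 0 0)) - vu T m u - ∑ i, cc T u i ^ 2 * dV T m i) atTop
      (𝓝 0) := by
      have h3 : Tendsto (fun T => C * ((∑ i, |cc T u i|) * 2)) atTop (𝓝 0) := by
        have := ((tendsto_cc u).mul_const 2).const_mul C
        simpa using this
      refine squeeze_zero_norm' ?_ h3
      filter_upwards [ev_Yt, (tendsto_cc u).eventually (gt_mem_nhds (by norm_num : (0 : ℝ) < 2))]
        with T hT hT2
      obtain ⟨hY, hYL, hL⟩ := hT
      obtain ⟨-, -, -, h4⟩ := hEU 1 0 (zc (Yt T)) 0 (ws T m (cc T u)) 0 (by norm_num)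
        (by norm_num) (wt_ws hY _ hT2.le) (wt_zero _)
      have h5 : ∑ p ∈ Nat.primesBelow (zc (Yt T)),
          (c1 1 0 0 (ws T m (cc T u)) 0 p - c1 1 0 0 0 0 p) / (p : ℝ) =
          vu T m u + ∑ i, cc T u i ^ 2 * dV T m i := by
        rw [vu_eq, ← Finset.sum_add_distrib]
        have e1 : ∑ i, (2 * cc T u i * dV T m i + cc T u i ^ 2 * dV T m i) =
            ∑ i, (cc T u i + (cc T u i + cc T u i * cc T u i)) * dV T m i :=
          Finset.sum_congr rfl fun i _ => by ring
        rw [e1, ← sum_ws hY (fun i => cc T u i + (cc T u i + cc T u i * cc T u i))]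
        refine Finset.sum_congr rfl fun p hp => ?_
        congr 1
        rw [c1_eq _ _ _ _ _ (primes_pos hp), c1_eq _ _ _ _ _ (primes_pos hp),
          ← ws_add (cc T u) (fun i => cc T u i + cc T u i * cc T u i),
          ← ws_add (cc T u) (fun i => cc T u i * cc T u i), ← ws_mul hY]
        simp only [Pi.zero_apply, Nat.cast_one, Nat.cast_zero]
        ring
      rw [h5] at h4
      have h6 : ∑ p ∈ Nat.primesBelow (zc (Yt T)),
          (|ws T m (cc T u) p| + |(0 : ℕ → ℝ) p|) / (p : ℝ) ^ 2 ≤ (∑ i, |cc T u i|) * 2 := by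
        have h7 := sum_abs_ws (T := T) (cc T u) (fun _ : Fin m => (0 : ℝ)) (zc (Yt T))
        have h8 : ∀ p, ws T m (fun _ : Fin m => (0 : ℝ)) p = 0 := by
          intro p
          unfold ws
          simp
        simpa [h8] using h7
      rw [Real.norm_eq_abs, wu_eq]
      refine le_trans (le_of_eq ?_) (h4.trans (mul_le_mul_of_nonneg_left h6 hC.le))
      congr 1
      ring
    have h3 := h2.add h1
    simpa using h3
  have hexp := (Real.continuous_exp.tendsto _).comp hlog
  refine hexp.congr' ?_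
  filter_upwards [ev_Yt, (tendsto_cc u).eventually (gt_mem_nhds (by norm_num : (0 : ℝ) < 2))]
    with T hT hT2
  obtain ⟨hY, hYL, hL⟩ := hT
  obtain ⟨-, h4, -, -⟩ := hEU 1 0 (zc (Yt T)) 0 (ws T m (cc T u)) 0 (by norm_num)
    (by norm_num) (wt_ws hY _ hT2.le) (wt_zero _)
  obtain ⟨-, h5, -, -⟩ := hEU 1 0 (zc (Yt T)) 0 0 0 (by norm_num)
    (by norm_num) (wt_zero _) (wt_zero _)
  rw [Function.comp_apply, sub_eq_add_neg, Real.exp_add, Real.exp_sub, wu_eq,
    Real.exp_log (by linarith), Real.exp_log (by linarith)]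

/-- The sums of the real parts of the characters over the blocks. -/
theorem block_bound (hM : J_MERT) (hPS : J_PS) (K : ℝ) : ∃ C0 : ℝ, 0 ≤ C0 ∧ ∀ᶠ T in atTop,
    ∀ h : ℝ, 1 ≤ h → h ≤ Real.exp (K * Real.sqrt (La T)) → ∀ α β : ℝ, 0 ≤ α → α ≤ β →
    |∑ p ∈ bl α β, (om h p).re / p| ≤ 3 * Real.log (La T) + C0 := by
  obtain ⟨D, hM⟩ := hM
  obtain ⟨E, c, hE, hc, hPS⟩ := hPS
  refine ⟨|D| + 3 * E, by positivity, ?_⟩
  filter_upwards [tendsto_La.eventually_ge_atTop 1, tendsto_La.eventually_ge_atTop (|K| / c)]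
    with T hL hLK h hh1 hh2 α β hα hαβ
  have hL0 : 0 < La T := by linarith
  have hlog : 0 ≤ Real.log (La T) := Real.log_nonneg hL
  set y0 := 3 * Real.log (La T) with hy0
  have hy00 : 0 ≤ y0 := by positivity
  set γ := max α (min β y0) with hγ
  have hγ1 : α ≤ γ := le_max_left _ _
  have hγ2 : γ ≤ β := max_le hαβ (min_le_left _ _)
  have hpos : ∀ a b : ℝ, ∀ p ∈ bl a b, 0 < p := by
    intro a b p hp
    unfold bl at hp
    exact (Finset.mem_filter.1 hp).2.pos
  have hsplit : ∑ p ∈ bl α β, (om h p).re / p =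
      ∑ p ∈ bl α γ, (om h p).re / p + ∑ p ∈ bl γ β, (om h p).re / p := by
    rw [sum_bl hαβ, sum_bl hγ1, sum_bl hγ2]
    ring
  have h1 : |∑ p ∈ bl α γ, (om h p).re / p| ≤ y0 + |D| := by
    have e1 : |∑ p ∈ bl α γ, (om h p).re / p| ≤ VV γ - VV α := by
      rw [← sum_bl_inv hγ1]
      refine (Finset.abs_sum_le_sum_abs _ _).trans (Finset.sum_le_sum fun p hp => ?_)
      rw [abs_div, Nat.abs_cast]
      exact div_le_div_of_nonneg_right (norm_re_om (hpos _ _ p hp)) (by positivity)
    refine e1.trans ?_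
    rcases le_total α (min β y0) with h2 | h2
    · have e2 : γ = min β y0 := max_eq_right h2
      have e3 : γ ≤ y0 := by
        rw [e2]
        exact min_le_right _ _
      have e4 := VV_mono e3
      have e5 := (abs_le.1 (hM y0 hy00)).2
      have e6 := le_abs_self D
      have e7 : 0 ≤ VV α := by
        unfold VV
        exact Finset.sum_nonneg fun p _ => by positivity
      linarith
    · have e2 : γ = α := max_eq_left h2
      rw [e2, sub_self]
      positivity
  have h2 : |∑ p ∈ bl γ β, (om h p).re / p| ≤ 3 * E := by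
    by_cases h3 : y0 ≤ γ
    · have hh0 : 0 < h := by linarith
      have h4 := hPS h hh0.ne' (zc γ) (zc β) (two_le_zc (hα.trans hγ1)) (zc_mono hγ2)
      refine (sum_re_le (bl γ β) (hpos _ _)).trans (h4.trans ?_)
      rw [abs_of_pos hh0]
      have e1 : La T ^ 3 ≤ Real.log (zc γ) := by
        have e2 := exp_le_log_zc γ
        have e3 : Real.exp y0 = La T ^ 3 := by
          have e4 : y0 = ((3 : ℕ) : ℝ) * Real.log (La T) := by
            rw [hy0]
            norm_num
          rw [e4, Real.exp_nat_mul, Real.exp_log hL0]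
        rw [← e3]
        exact (Real.exp_le_exp.2 h3).trans e2
      have e5 : 1 ≤ La T ^ 3 := one_le_pow₀ hL
      have e6 : E / (h * Real.log (zc γ)) ≤ E := by
        apply div_le_self hE.le
        nlinarith
      have e7 : La T * Real.sqrt (La T) ≤ Real.sqrt (Real.log (zc γ)) := by
        refine (le_abs_self _).trans (Real.abs_le_sqrt ?_)
        rw [mul_pow, Real.sq_sqrt hL0.le]
        refine le_trans (le_of_eq ?_) e1
        ring
      have e8 : K * Real.sqrt (La T) ≤ c * Real.sqrt (Real.log (zc γ)) := by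
        have e9 : |K| ≤ c * La T := by
          rw [div_le_iff₀ hc] at hLK
          linarith
        calc K * Real.sqrt (La T) ≤ |K| * Real.sqrt (La T) :=
              mul_le_mul_of_nonneg_right (le_abs_self K) (Real.sqrt_nonneg _)
          _ ≤ c * La T * Real.sqrt (La T) :=
              mul_le_mul_of_nonneg_right e9 (Real.sqrt_nonneg _)
          _ = c * (La T * Real.sqrt (La T)) := by ring
          _ ≤ _ := mul_le_mul_of_nonneg_left e7 hc.le
      have e9 : E * (1 + h) * Real.exp (-(c * Real.sqrt (Real.log (zc γ)))) ≤ 2 * E := by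
        have f1 : E * (1 + h) ≤ 2 * E * Real.exp (K * Real.sqrt (La T)) := by nlinarith
        calc E * (1 + h) * Real.exp (-(c * Real.sqrt (Real.log (zc γ))))
            ≤ 2 * E * Real.exp (K * Real.sqrt (La T)) *
              Real.exp (-(c * Real.sqrt (Real.log (zc γ)))) :=
              mul_le_mul_of_nonneg_right f1 (Real.exp_pos _).le
          _ = 2 * E * Real.exp (K * Real.sqrt (La T) + -(c * Real.sqrt (Real.log (zc γ)))) := by
              rw [Real.exp_add]
              ring
          _ ≤ 2 * E * 1 := by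
              refine mul_le_mul_of_nonneg_left ?_ (by positivity)
              rw [Real.exp_le_one_iff]
              linarith
          _ = 2 * E := mul_one _
      linarith
    · push Not at h3
      have e1 : γ = β := by
        refine le_antisymm hγ2 ?_
        have e2 : min β y0 ≤ γ := le_max_right _ _
        rcases le_total β y0 with e3 | e3
        · rwa [min_eq_left e3] at e2
        · rw [min_eq_right e3] at e2
          linarith
      rw [e1]
      have h4 : bl β β = ∅ := by
        unfold bl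
        simp
      rw [h4, Finset.sum_empty, abs_zero]
      positivity
  rw [hsplit]
  refine (abs_add_le _ _).trans ?_
  linarith

theorem tendsto_log_sqrt (C0 : ℝ) :
    Tendsto (fun T => 1 / Real.sqrt (La T) * (3 * Real.log (La T) + C0)) atTop (𝓝 0) := by
  have h1 : Tendsto (fun x : ℝ => Real.log x / x) atTop (𝓝 0) := by
    have := Real.tendsto_pow_log_div_mul_add_atTop 1 0 1 one_ne_zero
    simpa using this
  have hs : Tendsto (fun T => Real.sqrt (La T)) atTop atTop :=
    Real.tendsto_sqrt_atTop.comp tendsto_La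
  have h2 := (h1.comp hs).const_mul 6
  have h3 := tendsto_inv_sqrt.mul_const C0
  have h4 := h2.add h3
  rw [mul_zero, zero_mul, add_zero] at h4
  refine h4.congr' ?_
  filter_upwards [tendsto_La.eventually_gt_atTop 0] with T hT
  have e1 : Real.log (La T) = 2 * Real.log (Real.sqrt (La T)) := by
    have e2 : Real.log (La T) = Real.log (Real.sqrt (La T) * Real.sqrt (La T)) := by
      rw [Real.mul_self_sqrt hT.le]
    have e3 : Real.sqrt (La T) ≠ 0 := (Real.sqrt_pos.2 hT).ne'
    rw [e2, Real.log_mul e3 e3]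
    ring
  rw [Function.comp_apply, e1]
  ring

theorem tendsto_cc_log (u : Fin m → ℝ) (C0 : ℝ) (i : Fin m) :
    Tendsto (fun T => |cc T u i| * (3 * Real.log (La T) + C0)) atTop (𝓝 0) := by
  have h1 := (tendsto_log_sqrt C0).const_mul (|u i| / 2)
  rw [mul_zero] at h1
  refine h1.congr' ?_
  filter_upwards [tendsto_La.eventually_gt_atTop 0] with T hT
  have e3 : 0 < Real.sqrt (La T) := Real.sqrt_pos.2 hT
  unfold cc
  rw [abs_div, abs_of_pos (by positivity : 0 < 2 * Real.sqrt (La T))]
  field_simp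

theorem two (hEU : J_EU) (hM : J_MERT) (hPS : J_PS) : J_TWO := by
  intro m u u' K ε hm hε
  obtain ⟨C0, hC0, hB⟩ := block_bound hM hPS K
  obtain ⟨C, hC, hEU⟩ := hEU
  set L : ℝ := (∑ i, u i ^ 2 + ∑ i, u' i ^ 2) / (4 * m) with hL
  have hcont := Metric.continuousAt_iff.1 (Real.continuous_exp.continuousAt (x := L)) ε hε
  obtain ⟨δ, hδ, hcont⟩ := hcont
  have hR1 : Tendsto (fun T => |∑ i, cc T u i ^ 2 * dV T m i + ∑ i, cc T u' i ^ 2 * dV T m i - L|)
      atTop (𝓝 0) := by
    have h1 := ((tendsto_sq hM hm u).add (tendsto_sq hM hm u')).sub_const L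
    have h2 : (∑ i, u i ^ 2) / (4 * (m : ℝ)) + (∑ i, u' i ^ 2) / (4 * m) - L = 0 := by
      rw [hL]
      ring
    rw [h2] at h1
    have h3 := h1.abs
    rwa [abs_zero] at h3
  have hR2 : Tendsto (fun T => ∑ i, (|cc T u i| + |cc T u' i| + |cc T u i| * |cc T u' i|) *
      (3 * Real.log (La T) + C0)) atTop (𝓝 0) := by
    have h1 : ∀ i : Fin m, Tendsto (fun T => (|cc T u i| + |cc T u' i| +
        |cc T u i| * |cc T u' i|) * (3 * Real.log (La T) + C0)) atTop (𝓝 0) := by
      intro i
      have e1 := tendsto_cc_log u C0 i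
      have e2 := tendsto_cc_log u' C0 i
      have e3 : Tendsto (fun T => |cc T u i|) atTop (𝓝 0) := by
        refine squeeze_zero (fun T => abs_nonneg _) (fun T => ?_) (tendsto_cc u)
        exact Finset.single_le_sum (f := fun i => |cc T u i|) (fun j _ => abs_nonneg _)
          (Finset.mem_univ i)
      have e4 := (e1.add e2).add (e3.mul e2)
      rw [mul_zero, add_zero, add_zero] at e4
      refine e4.congr fun T => ?_
      ring
    have h3 := tendsto_finsetSum (Finset.univ : Finset (Fin m)) (fun i _ => h1 i)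
    simpa using h3
  have hR3 : Tendsto (fun T => C * ((∑ i, |cc T u i| + ∑ i, |cc T u' i|) * 2)) atTop (𝓝 0) := by
    have := (((tendsto_cc u).add (tendsto_cc u')).mul_const 2).const_mul C
    simpa using this
  have hR := (hR1.add (hR2.const_mul 2)).add hR3
  simp only [mul_zero, add_zero] at hR
  filter_upwards [ev_Yt, (tendsto_cc u).eventually (gt_mem_nhds (by norm_num : (0 : ℝ) < 2)),
    (tendsto_cc u').eventually (gt_mem_nhds (by norm_num : (0 : ℝ) < 2)), hB,
    hR.eventually (gt_mem_nhds hδ)] with T hT hT2 hT3 hBT hRT h hh1 hh2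
  obtain ⟨hY, hYL, hL1⟩ := hT
  obtain ⟨-, g1, -, g2⟩ := hEU 1 1 (zc (Yt T)) h (ws T m (cc T u)) (ws T m (cc T u')) le_rfl
    le_rfl (wt_ws hY _ hT2.le) (wt_ws hY _ hT3.le)
  obtain ⟨-, g0, -, -⟩ := hEU 1 1 (zc (Yt T)) h 0 0 le_rfl le_rfl (wt_zero _) (wt_zero _)
  set κ : Fin m → ℝ := fun i => cc T u i + (cc T u' i + cc T u i * cc T u' i) with hκ
  have h5 : ∑ p ∈ Nat.primesBelow (zc (Yt T)),
      (c1 1 1 h (ws T m (cc T u)) (ws T m (cc T u')) p - c1 1 1 h 0 0 p) / (p : ℝ) =
      (vu T m u + ∑ i, cc T u i ^ 2 * dV T m i) + (vu T m u' + ∑ i, cc T u' i ^ 2 * dV T m i) +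
        2 * ∑ i, κ i * ∑ p ∈ bl (al T m i) (be T m i), (om h p).re / p := by
    have e0 : ∀ u : Fin m → ℝ, vu T m u + ∑ i, cc T u i ^ 2 * dV T m i =
        ∑ p ∈ Nat.primesBelow (zc (Yt T)),
          (2 * ws T m (cc T u) p + ws T m (cc T u) p ^ 2) / (p : ℝ) := by
      intro u
      rw [vu_eq, ← Finset.sum_add_distrib]
      have e1 : ∑ i, (2 * cc T u i * dV T m i + cc T u i ^ 2 * dV T m i) =
          ∑ i, (cc T u i + (cc T u i + cc T u i * cc T u i)) * dV T m i :=
        Finset.sum_congr rfl fun i _ => by ring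
      rw [e1, ← sum_ws hY (fun i => cc T u i + (cc T u i + cc T u i * cc T u i))]
      refine Finset.sum_congr rfl fun p hp => ?_
      congr 1
      rw [← ws_add (cc T u) (fun i => cc T u i + cc T u i * cc T u i),
        ← ws_add (cc T u) (fun i => cc T u i * cc T u i), ← ws_mul hY]
      ring
    rw [e0, e0, ← sum_ws_om hY κ h, Finset.mul_sum, ← Finset.sum_add_distrib,
      ← Finset.sum_add_distrib]
    refine Finset.sum_congr rfl fun p hp => ?_
    rw [c1_eq _ _ _ _ _ (primes_pos hp), c1_eq _ _ _ _ _ (primes_pos hp), hκ,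
      ← ws_add (cc T u) (fun i => cc T u' i + cc T u i * cc T u' i),
      ← ws_add (cc T u') (fun i => cc T u i * cc T u' i), ← ws_mul hY]
    simp only [Pi.zero_apply, Nat.cast_one]
    ring
  rw [h5] at g2
  have h6 := g2.trans (mul_le_mul_of_nonneg_left (sum_abs_ws (T := T) (cc T u) (cc T u')
    (zc (Yt T))) hC.le)
  have h7 : |∑ i, κ i * ∑ p ∈ bl (al T m i) (be T m i), (om h p).re / p| ≤
      ∑ i, (|cc T u i| + |cc T u' i| + |cc T u i| * |cc T u' i|) *
        (3 * Real.log (La T) + C0) := by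
    refine (Finset.abs_sum_le_sum_abs _ _).trans (Finset.sum_le_sum fun i _ => ?_)
    rw [abs_mul]
    have e1 := hBT h hh1 hh2 (al T m i) (be T m i) (al_nonneg hY i) (al_le_be hY i)
    refine mul_le_mul ?_ e1 (abs_nonneg _) (by positivity)
    rw [hκ]
    refine (abs_add_le _ _).trans ?_
    have e2 := abs_add_le (cc T u' i) (cc T u i * cc T u' i)
    rw [abs_mul] at e2
    linarith
  set S1 := ∑ i, cc T u i ^ 2 * dV T m i
  set S2 := ∑ i, cc T u' i ^ 2 * dV T m i
  set S3 := ∑ i, κ i * ∑ p ∈ bl (al T m i) (be T m i), (om h p).re / p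
  set X1 := nm (GG 1 1 (zc (Yt T)) h (ws T m (cc T u)) (ws T m (cc T u'))) with hX1
  set X0 := nm (GG 1 1 (zc (Yt T)) h 0 0) with hX0
  have h8 : |(Real.log X1 - Real.log X0 - vu T m u - vu T m u') - L| < δ := by
    refine lt_of_le_of_lt ?_ hRT
    have e1 : (Real.log X1 - Real.log X0 - vu T m u - vu T m u') - L =
        (S1 + S2 - L) + 2 * S3 + (Real.log X1 - Real.log X0 -
          ((vu T m u + S1) + (vu T m u' + S2) + 2 * S3)) := by ring
    rw [e1]
    refine (abs_add_le _ _).trans (add_le_add ((abs_add_le _ _).trans (add_le_add le_rfl ?_)) h6)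
    rw [abs_mul, abs_of_pos (by norm_num : (0 : ℝ) < 2)]
    exact mul_le_mul_of_nonneg_left h7 (by norm_num)
  have h9 := hcont (x := Real.log X1 - Real.log X0 - vu T m u - vu T m u') h8
  rw [Real.dist_eq] at h9
  have h10 : X1 / X0 * Real.exp (-(vu T m u) - vu T m u') =
      Real.exp (Real.log X1 - Real.log X0 - vu T m u - vu T m u') := by
    have e1 : Real.log X1 - Real.log X0 - vu T m u - vu T m u' =
        (Real.log X1 - Real.log X0) + (-(vu T m u) - vu T m u') := by ring
    rw [e1, Real.exp_add, Real.exp_sub (Real.log X1) (Real.log X0), Real.exp_log (by linarith),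
      Real.exp_log (by linarith)]
  rw [wu_eq, wu_eq, ← hX1, h10]
  exact h9.le

end Pool.Agent.Q237.EW
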